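import Pool.Agent.Helper61.MM.DefsB
import Pool.Agent.Helper60.TJ.C0

set_option autoImplicit false

/-! Basic facts on modifications: composition, boundary of finite edge sets, measurability. -/

namespace Pool.Agent.Helper63.MS

open MeasureTheory ProbabilityTheory Pool.Agent.Helper60.TJ Pool.Agent.Helper61.MM
open scoped symmDiff

/-! ### boundary -/

theorem edg_ends (v : Vx) (d : Dir) : v = da (edg v d) ∨ v = db (edg v d) := by
  obtain ⟨a, b⟩ := v
  fin_cases d <;> simp [edg, da, db]

theorem mem_bdy {D : Finset Ed} {v : Vx} : v ∈ bdy D ↔ par (ind D) v = true := by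
  unfold bdy
  rw [Finset.mem_filter]
  refine ⟨fun h => h.2, fun h => ⟨?_, h⟩⟩
  have h1 : ∃ d, edg v d ∈ D := by
    by_contra hcon
    push Not at hcon
    have h2 : ∀ d, ind D (edg v d) = false := fun d => by simp [ind, hcon d]
    unfold par at h
    rw [h2, h2, h2, h2] at h
    exact absurd h (by decide)
  obtain ⟨d, hd⟩ := h1
  rw [Finset.mem_union, Finset.mem_image, Finset.mem_image]
  rcases edg_ends v d with h3 | h3
  · exact Or.inl ⟨_, hd, h3.symm⟩
  · exact Or.inr ⟨_, hd, h3.symm⟩

theorem indV_bdy (D : Finset Ed) : indV (bdy D) = par (ind D) := by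
  funext v
  unfold indV
  by_cases h : par (ind D) v = true
  · rw [h]; simp [mem_bdy, h]
  · have h1 : par (ind D) v = false := by simpa using h
    rw [h1]; simp [mem_bdy, h1]

theorem bdy_congr {D D' : Finset Ed} (h : par (ind D) = par (ind D')) : bdy D = bdy D' := by
  ext v; rw [mem_bdy, mem_bdy, h]

theorem bdy_of_par {D : Finset Ed} {x x' : Vx} (h : par (ind D) = vx (dl x) (dl x')) :
    bdy D = ({x} : Finset Vx) ∆ {x'} := by
  ext v
  rw [mem_bdy, h, Finset.mem_symmDiff, Finset.mem_singleton, Finset.mem_singleton]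
  unfold vx dl
  by_cases h1 : v = x <;> by_cases h2 : v = x' <;> simp [h1, h2]

theorem bdy_empty : bdy ∅ = ∅ := by
  ext v; rw [mem_bdy, par_empty]; simp

theorem bdy_symmDiff (D D' : Finset Ed) : bdy (D ∆ D') = bdy D ∆ bdy D' := by
  ext v
  rw [mem_bdy, par_ind_symmDiff, Finset.mem_symmDiff, mem_bdy, mem_bdy]
  unfold vx
  cases par (ind D) v <;> cases par (ind D') v <;> simp

theorem tg_g0 {D : Finset Ed} {x x' : Vx} (h : par (ind D) = vx (dl x) (dl x')) :
    tg g0 D = txy x x' := by
  unfold tg txy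
  rw [bdy_of_par h]
  simp

/-! ### the group of modifications -/

theorem sd_empty {α : Type*} [DecidableEq α] (S : Finset α) : S ∆ ∅ = S := symmDiff_bot S

theorem gad_comm (g g' : Gm) : gad g g' = gad g' g := by
  unfold gad; rw [symmDiff_comm g.1, symmDiff_comm g.2]

theorem gad_assoc (g g' g'' : Gm) : gad (gad g g') g'' = gad g (gad g' g'') := by
  unfold gad; simp [symmDiff_assoc]

theorem gad_g0 (g : Gm) : gad g g0 = g := by
  obtain ⟨a, b⟩ := g; simp [gad]

theorem g0_gad (g : Gm) : gad g0 g = g := by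
  rw [gad_comm, gad_g0]

theorem gad_self (g : Gm) : gad g g = g0 := by
  unfold gad; simp

theorem txy_comm (x y : Vx) : txy x y = txy y x := by
  unfold txy; rw [symmDiff_comm]

theorem txy_self (x : Vx) : txy x x = g0 := by
  unfold txy; simp

theorem gad_txy (x y z : Vx) : gad (txy x y) (txy x z) = txy y z := by
  unfold gad txy
  rw [symmDiff_comm ({x} : Finset Vx) {y}, symmDiff_assoc, symmDiff_symmDiff_cancel_left]
  simp

theorem tg_eq (g : Gm) (D : Finset Ed) : tg g D = gad g (bdy D, ∅) := by
  unfold tg gad; simp [sd_empty]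

theorem tg_tg (g : Gm) (D D' : Finset Ed) : tg (tg g D) D' = tg g (D ∆ D') := by
  unfold tg; simp [bdy_symmDiff, symmDiff_assoc]

theorem tg_empty (g : Gm) : tg g ∅ = g := by
  unfold tg; simp [bdy_empty, sd_empty]

theorem indV_symmDiff (S S' : Finset Vx) : indV (S ∆ S') = vx (indV S) (indV S') := by
  funext v
  unfold indV vx
  by_cases h : v ∈ S <;> by_cases h' : v ∈ S' <;> simp [Finset.mem_symmDiff, h, h']

theorem aE_aE (g g' : Gm) (ω : Env) : aE g (aE g' ω) = aE (gad g g') ω := by
  unfold aE gad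
  refine Prod.ext ?_ ?_
  · funext e
    simp only [Finset.mem_symmDiff]
    by_cases h : e ∈ g.2 <;> by_cases h' : e ∈ g'.2 <;> simp [h, h']
  · show vx (vx ω.2 (indV g'.1)) (indV g.1) = vx ω.2 (indV (g.1 ∆ g'.1))
    rw [indV_symmDiff, vx_assoc, vx_comm (indV g'.1)]

theorem aV_aV (g g' : Gm) (s : Vl) : aV g (aV g' s) = aV (gad g g') s := by
  funext g''
  unfold aV
  rw [← gad_assoc, gad_comm g' g]

theorem aO_aO (g g' : Gm) (z : Om) : aO g (aO g' z) = aO (gad g g') z := by
  unfold aO; simp only [aE_aE, aV_aV]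

theorem aO_g0 (z : Om) : aO g0 z = z := by
  unfold aO aE aV
  simp only [g0_gad]
  have h : vx z.1.2 (indV ∅) = z.1.2 := by
    have h1 : indV ∅ = fun _ => false := by funext v; simp [indV]
    rw [h1, vx_false]
  simp [h]

theorem rp_aO (g : Gm) (z : Om) (i : Fin 3) : rp (aO g z) i = aV g (rp z i) := by
  fin_cases i <;> rfl

theorem uu_aO (g g' : Gm) (z : Om) (i : Fin 3) :
    uu (rp (aO g z) i) g' = uu (rp z i) (gad g g') := by
  rw [rp_aO]; rfl

theorem ww_aE (g g' : Gm) (ω : Env) : ww g' (aE g ω) = ww (gad g g') ω := by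
  funext e
  unfold ww aE gad
  simp only [Finset.mem_symmDiff]
  by_cases h : e ∈ g.2 <;> by_cases h' : e ∈ g'.2 <;> simp [h, h']

theorem ww_aO (g g' : Gm) (z : Om) : ww g' (aO g z).1 = ww (gad g g') z.1 := ww_aE g g' z.1

theorem pr_aO (i j : Fin 3) (g g' : Gm) (z : Om) : pr i j g' (aO g z) = pr i j (gad g g') z := by
  unfold pr
  rw [uu_aO, uu_aO, ww_aO]

theorem mem_Df_aO (i j : Fin 3) (g g' : Gm) (z : Om) : aO g z ∈ Df i j g' ↔ z ∈ Df i j (gad g g') := by
  unfold Df
  simp only [Set.mem_ofPred_eq, uu_aO]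

/-! ### measurability -/

theorem measurable_uu (g : Gm) : Measurable fun s : Vl => uu s g :=
  (measurable_pi_apply g).fst

theorem measurable_hh (g : Gm) (D : Finset Ed) : Measurable fun s : Vl => hh s g D :=
  (measurable_pi_apply D).comp (measurable_pi_apply g).snd.fst

theorem measurable_fx (g : Gm) (e : Ed) : Measurable fun s : Vl => fx s g e :=
  (measurable_pi_apply e).comp (measurable_pi_apply g).snd.snd

theorem measurable_rp (i : Fin 3) : Measurable fun z : Om => rp z i := by
  fin_cases i
  · exact measurable_snd.fst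
  · exact measurable_snd.snd.fst
  · exact measurable_snd.snd.snd

theorem measurable_ww (g : Gm) : Measurable fun ω : Env => ww g ω := by
  refine measurable_pi_lambda _ fun e => ?_
  unfold ww
  by_cases h : e ∈ g.2
  · simp only [h, if_true]
    exact ((measurable_pi_apply e).comp measurable_fst).snd
  · simp only [h, if_false]
    exact ((measurable_pi_apply e).comp measurable_fst).fst

theorem measurable_pr (i j : Fin 3) (g : Gm) : Measurable (pr i j g) :=
  ((measurable_ww g).comp measurable_fst).prodMk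
    (((measurable_uu g).comp (measurable_rp i)).prodMk ((measurable_uu g).comp (measurable_rp j)))

theorem measurableSet_Df (i j : Fin 3) (g : Gm) : MeasurableSet (Df i j g) := by
  have h1 : Df i j g = (⋂ e : Ed, {z : Om | uu (rp z i) g e = uu (rp z j) g e})ᶜ := by
    ext z
    unfold Df
    simp only [Set.mem_ofPred_eq, Set.mem_compl_iff, Set.mem_iInter, ne_eq, funext_iff]
  rw [h1]
  refine (MeasurableSet.iInter fun e => ?_).compl
  exact measurableSet_eq_fun
    ((measurable_pi_apply e).comp ((measurable_uu g).comp (measurable_rp i)))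
    ((measurable_pi_apply e).comp ((measurable_uu g).comp (measurable_rp j)))

end Pool.Agent.Helper63.MS
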