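import Mathlib

set_option autoImplicit false

/-! Second moment inequality for a family of measure preserving maps. -/

namespace Pool.Agent.Helper63.MS

open MeasureTheory

theorem second_moment {Ω ι : Type*} [MeasurableSpace Ω] {P : Measure Ω} [IsProbabilityMeasure P]
    (F : Finset ι) (τ : ι → Ω → Ω) (σ : ι → ι → Ω → Ω)
    (hτ : ∀ i ∈ F, MeasurePreserving (τ i) P P)
    (hσ : ∀ i ∈ F, ∀ j ∈ F, ∀ ω, σ i j (τ i ω) = τ j ω) {E : Set Ω} (hE : MeasurableSet E)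
    (hσm : ∀ i ∈ F, ∀ j ∈ F, MeasurableSet (σ i j ⁻¹' E)) :
    (P.real E * F.card) ^ 2 ≤ ∑ i ∈ F, ∑ j ∈ F, P.real (E ∩ σ i j ⁻¹' E) := by
  classical
  set c : ℝ := P.real E * F.card with hc
  have hm : ∀ i ∈ F, MeasurableSet (τ i ⁻¹' E) := fun i hi => (hτ i hi).measurable hE
  let g : ι → Ω → ℝ := fun i => (τ i ⁻¹' E).indicator 1
  have hgi : ∀ i ∈ F, Integrable (g i) P := fun i hi =>
    (integrable_const (1 : ℝ)).indicator (hm i hi)
  have hg1 : ∀ i ∈ F, ∫ ω, g i ω ∂P = P.real E := fun i hi => by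
    rw [integral_indicator_one (hm i hi)]
    exact (hτ i hi).measureReal_preimage hE.nullMeasurableSet
  have hgg : ∀ i j ω, g i ω * g j ω = (τ i ⁻¹' E ∩ τ j ⁻¹' E).indicator (1 : Ω → ℝ) ω := by
    intro i j ω
    simp only [g]
    by_cases h1 : ω ∈ τ i ⁻¹' E <;> by_cases h2 : ω ∈ τ j ⁻¹' E <;>
      simp [Set.indicator, h1, h2] <;> simp_all
  have hgi2 : ∀ i ∈ F, ∀ j ∈ F, Integrable (fun ω => g i ω * g j ω) P := by
    intro i hi j hj
    simp only [hgg]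
    exact (integrable_const (1 : ℝ)).indicator ((hm i hi).inter (hm j hj))
  have hg2 : ∀ i ∈ F, ∀ j ∈ F, ∫ ω, g i ω * g j ω ∂P = P.real (E ∩ σ i j ⁻¹' E) := by
    intro i hi j hj
    simp only [hgg]
    rw [integral_indicator_one ((hm i hi).inter (hm j hj))]
    have h1 : τ i ⁻¹' E ∩ τ j ⁻¹' E = τ i ⁻¹' (E ∩ σ i j ⁻¹' E) := by
      ext ω
      simp only [Set.mem_inter_iff, Set.mem_preimage, hσ i hi j hj]
    rw [h1]
    exact (hτ i hi).measureReal_preimage (hE.inter (hσm i hi j hj)).nullMeasurableSet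
  have hfi : Integrable (fun ω => ∑ i ∈ F, g i ω) P := integrable_finsetSum _ hgi
  have hf1 : ∫ ω, (∑ i ∈ F, g i ω) ∂P = c := by
    rw [integral_finsetSum _ hgi, Finset.sum_congr rfl hg1, Finset.sum_const, nsmul_eq_mul, hc,
      mul_comm]
  have hsq : ∀ ω, (∑ i ∈ F, g i ω) ^ 2 = ∑ i ∈ F, ∑ j ∈ F, g i ω * g j ω := fun ω => by
    rw [sq, Finset.sum_mul_sum]
  have hf2i : Integrable (fun ω => (∑ i ∈ F, g i ω) ^ 2) P := by
    simp only [hsq]
    exact integrable_finsetSum _ fun i hi => integrable_finsetSum _ fun j hj => hgi2 i hi j hj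
  have hf2 : ∫ ω, (∑ i ∈ F, g i ω) ^ 2 ∂P = ∑ i ∈ F, ∑ j ∈ F, P.real (E ∩ σ i j ⁻¹' E) := by
    simp only [hsq]
    rw [integral_finsetSum _ fun i hi => integrable_finsetSum _ fun j hj => hgi2 i hi j hj]
    refine Finset.sum_congr rfl fun i hi => ?_
    rw [integral_finsetSum _ fun j hj => hgi2 i hi j hj]
    exact Finset.sum_congr rfl fun j hj => hg2 i hi j hj
  have h0 : 0 ≤ ∫ ω, ((∑ i ∈ F, g i ω) - c) ^ 2 ∂P := integral_nonneg fun ω => sq_nonneg _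
  have h1 : ∫ ω, ((∑ i ∈ F, g i ω) - c) ^ 2 ∂P =
      ∫ ω, (∑ i ∈ F, g i ω) ^ 2 ∂P - 2 * c * ∫ ω, (∑ i ∈ F, g i ω) ∂P + c ^ 2 := by
    have h2 : ∀ ω, ((∑ i ∈ F, g i ω) - c) ^ 2 =
        (∑ i ∈ F, g i ω) ^ 2 - 2 * c * (∑ i ∈ F, g i ω) + c ^ 2 := fun ω => by ring
    simp only [h2]
    have h3 : Integrable (fun ω => 2 * c * ∑ i ∈ F, g i ω) P := hfi.const_mul _
    have h4 : Integrable (fun ω => (∑ i ∈ F, g i ω) ^ 2 - 2 * c * ∑ i ∈ F, g i ω) P :=
      hf2i.sub h3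
    rw [integral_add h4 (integrable_const _), integral_sub hf2i h3, integral_const_mul,
      integral_const]
    simp
  rw [h1, hf1, hf2] at h0
  linarith [h0, sq c]

end Pool.Agent.Helper63.MS
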