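import Pool.Agent.Helper63.MS.NearB
import Pool.Agent.Helper63.MS.Act
import Pool.Agent.Helper63.MS.Second

set_option autoImplicit false

/-! Section 3: no three pairwise different replicas. -/

namespace Pool.Agent.Helper63.MS

open MeasureTheory Filter Topology ProbabilityTheory Pool.Agent.Helper60.TJ
open Pool.Agent.Helper61.MM
open scoped symmDiff ENNReal

/-! ### deterministic part -/

theorem ww_pos {ω : Env} {s : Vl} (h : Ok ω s) (g : Gm) (e : Ed) : 0 < ww g ω e := by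
  unfold ww
  split_ifs
  · exact (h.pos e).2
  · exact (h.pos e).1

theorem wt_ww {ω : Env} {s : Vl} (h : Ok ω s) (g : Gm) : wt (ww g ω) = ww g ω := by
  funext e
  exact abs_of_pos (ww_pos h g e)

theorem hh_empty {ω : Env} {s : Vl} (h : Ok ω s) (g : Gm) : hh s g ∅ = 0 := by
  have h1 := h.coc g ∅ ∅
  rw [tg_empty, sd_empty] at h1
  linarith

theorem hh_rev {ω : Env} {s : Vl} (h : Ok ω s) (g : Gm) (D : Finset Ed) :
    hh s (tg g D) D = - hh s g D := by
  have h1 := h.coc g D D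
  rw [symmDiff_self, show (⊥ : Finset Ed) = ∅ from rfl, hh_empty h] at h1
  linarith

theorem hh_le_two {z : Om} {i j : Fin 3} {g : Gm} {M : ℝ} {r : ℕ} (hi : Ok z.1 (rp z i))
    (hj : Ok z.1 (rp z j)) (hone : One (pr i j g z)) {x x' : Vx} (hx : Nr M r x (pr i j g z))
    (hx' : Nr M r x' (pr i j g z)) {D : Finset Ed} (hD : par (ind D) = vx (dl x) (dl x')) :
    ∃ v v' : Vx, v - x ∈ box r ∧ v' - x' ∈ box r ∧ OnW (wl (pr i j g z)) v ∧
      OnW (wl (pr i j g z)) v' ∧ ∃ Y : Finset Ed, (∀ e ∈ Y, wl (pr i j g z) e = true) ∧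
        par (ind Y) = vx (dl v) (dl v') ∧
        hh (rp z i) g D ≤ en (wt (pr i j g z).1) (uu (rp z i) g) Y + 2 * M ∧
        hh (rp z j) g D ≤ - en (wt (pr i j g z).1) (uu (rp z i) g) Y + 2 * M := by
  obtain ⟨v, h1, h2, A, hA, hAM⟩ := hx
  obtain ⟨v', h1', h2', B, hB, hBM⟩ := hx'
  obtain ⟨Y, hY, hYp⟩ := hone.2.2 v v' h2 h2'
  refine ⟨v, v', h1, h1', h2, h2', Y, hY, hYp, ?_, ?_⟩
  all_goals
    have hpar : par (ind ((Y ∆ A) ∆ B)) = par (ind D) := by
      rw [par_ind_symmDiff, par_ind_symmDiff, hYp, hA, hB, hD]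
      funext u
      unfold vx
      cases dl v u <;> cases dl v' u <;> cases dl x u <;> cases dl x' u <;> rfl
    have hw : ∀ e, 0 ≤ wt (pr i j g z).1 e := wt_nonneg _
    have hww : wt (pr i j g z).1 = ww g z.1 := wt_ww hi g
  · have h3 := hi.le g D _ hpar
    rw [← hww] at h3
    have h4 := en_symmDiff_le hw (uu (rp z i) g) (Y ∆ A) B
    have h5 := en_symmDiff_le hw (uu (rp z i) g) Y A
    linarith
  · have h3 := hj.le g D _ hpar
    rw [← hww] at h3
    have h4 := en_symmDiff_le hw (uu (rp z j) g) (Y ∆ A) B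
    have h5 := en_symmDiff_le hw (uu (rp z j) g) Y A
    have h6 : en (wt (pr i j g z).1) (uu (rp z j) g) Y = - en (wt (pr i j g z).1) (uu (rp z i) g) Y :=
      en_wall hY
    linarith

theorem three_det {z : Om} (hok : ∀ i, Ok z.1 (rp z i)) {x x' : Vx} {M : ℝ} {r : ℕ}
    (hone : ∀ i j, i ≠ j → One (pr i j g0 z)) (hone' : ∀ i j, i ≠ j → One (pr i j (txy x x') z))
    (hn : ∀ i j, i ≠ j → Nr M r x (pr i j g0 z) ∧ Nr M r x' (pr i j g0 z) ∧
      Nr M r x (pr i j (txy x x') z) ∧ Nr M r x' (pr i j (txy x x') z)) :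
    ∃ v v' : Vx, v - x ∈ box r ∧ v' - x' ∈ box r ∧ Cl (8 * M) v v' (pr 0 1 g0 z) := by
  obtain ⟨D, hD⟩ := H3x.exists_join x x'
  have hsum : ∀ i j, i ≠ j → |hh (rp z i) g0 D + hh (rp z j) g0 D| ≤ 4 * M := by
    intro i j hij
    obtain ⟨n1, n2, n3, n4⟩ := hn i j hij
    obtain ⟨-, -, -, -, -, -, Y, -, -, h1, h2⟩ := hh_le_two (hok i) (hok j) (hone i j hij) n1 n2 hD
    obtain ⟨-, -, -, -, -, -, Y', -, -, h3, h4⟩ :=
      hh_le_two (hok i) (hok j) (hone' i j hij) n3 n4 hD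
    rw [← tg_g0 hD, hh_rev (hok i)] at h3
    rw [← tg_g0 hD, hh_rev (hok j)] at h4
    rw [abs_le]
    constructor <;> linarith
  have h01 := abs_le.1 (hsum 0 1 (by decide))
  have h02 := abs_le.1 (hsum 0 2 (by decide))
  have h12 := abs_le.1 (hsum 1 2 (by decide))
  obtain ⟨n1, n2, -, -⟩ := hn 0 1 (by decide)
  obtain ⟨v, v', h1, h2, h3, h4, Y, hY, hYp, h5, h6⟩ :=
    hh_le_two (hok 0) (hok 1) (hone 0 1 (by decide)) n1 n2 hD
  refine ⟨v, v', h1, h2, h3, h4, Y, hY, hYp, ?_⟩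
  have h7 : en (wt (pr 0 1 g0 z).1) (pr 0 1 g0 z).2.1 Y =
      en (wt (pr 0 1 g0 z).1) (uu (rp z 0) g0) Y := rfl
  rw [h7, abs_le]
  constructor <;> linarith

/-! ### sums over a box -/

theorem sum_shift_le {f : Vx → ℝ} (hf : ∀ v, 0 ≤ f v) {L K : ℕ} {a : Vx} (ha : a ∈ box K) :
    ∑ x ∈ box L, f (x + a) ≤ ∑ v ∈ box (L + K), f v := by
  classical
  have h1 : ∑ x ∈ box L, f (x + a) = ∑ v ∈ (box L).image (· + a), f v := by
    rw [Finset.sum_image fun x _ y _ h => add_right_cancel h]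
  rw [h1]
  refine Finset.sum_le_sum_of_subset_of_nonneg ?_ fun v _ _ => hf v
  intro v hv
  obtain ⟨x, hx, rfl⟩ := Finset.mem_image.1 hv
  exact add_mem_box hx ha

theorem sum_shift_le2 {q : Vx → Vx → ℝ} (hq : ∀ v v', 0 ≤ q v v') (L K : ℕ) :
    ∑ x ∈ box L, ∑ x' ∈ box L, ∑ a ∈ box K, ∑ b ∈ box K, q (x + a) (x' + b) ≤
      ((box K).card : ℝ) ^ 2 * ∑ v ∈ box (L + K), ∑ v' ∈ box (L + K), q v v' := by
  have h1 : ∑ x ∈ box L, ∑ x' ∈ box L, ∑ a ∈ box K, ∑ b ∈ box K, q (x + a) (x' + b) =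
      ∑ a ∈ box K, ∑ b ∈ box K, ∑ x ∈ box L, ∑ x' ∈ box L, q (x + a) (x' + b) := by
    calc _ = ∑ x ∈ box L, ∑ a ∈ box K, ∑ x' ∈ box L, ∑ b ∈ box K, q (x + a) (x' + b) :=
          Finset.sum_congr rfl fun x _ => Finset.sum_comm
      _ = ∑ a ∈ box K, ∑ x ∈ box L, ∑ x' ∈ box L, ∑ b ∈ box K, q (x + a) (x' + b) :=
          Finset.sum_comm
      _ = ∑ a ∈ box K, ∑ x ∈ box L, ∑ b ∈ box K, ∑ x' ∈ box L, q (x + a) (x' + b) :=
          Finset.sum_congr rfl fun a _ => Finset.sum_congr rfl fun x _ => Finset.sum_comm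
      _ = _ := Finset.sum_congr rfl fun a _ => Finset.sum_comm
  rw [h1]
  calc _ ≤ ∑ _a ∈ box K, ∑ _b ∈ box K, ∑ v ∈ box (L + K), ∑ v' ∈ box (L + K), q v v' := by
        refine Finset.sum_le_sum fun a ha => Finset.sum_le_sum fun b hb => ?_
        calc ∑ x ∈ box L, ∑ x' ∈ box L, q (x + a) (x' + b)
            ≤ ∑ x ∈ box L, ∑ v' ∈ box (L + K), q (x + a) v' :=
              Finset.sum_le_sum fun x _ => sum_shift_le (fun v => hq _ v) hb
          _ ≤ _ := sum_shift_le (f := fun v => ∑ v' ∈ box (L + K), q v v')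
              (fun v => Finset.sum_nonneg fun v' _ => hq _ _) ha
    _ = _ := by
        rw [Finset.sum_const, Finset.sum_const, nsmul_eq_mul, nsmul_eq_mul, sq, mul_assoc]

theorem card_box_add_le {L K : ℕ} (h : K ≤ L) :
    ((box (L + K)).card : ℝ) ≤ 4 * ((box L).card : ℝ) := by
  rw [card_box', card_box']
  have h5 : 2 * (L + K) + 1 ≤ 2 * (2 * L + 1) := by omega
  have h6 : (2 * (L + K) + 1) * (2 * (L + K) + 1) ≤ 4 * ((2 * L + 1) * (2 * L + 1)) := by
    calc _ ≤ (2 * (2 * L + 1)) * (2 * (2 * L + 1)) := Nat.mul_le_mul h5 h5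
      _ = _ := by ring
  exact_mod_cast h6

theorem cl_small_real {Q : Measure XX} (hW : WQ Q) (C : ℝ) {ε : ℝ} (hε : 0 < ε) :
    ∃ L₀ : ℕ, ∀ L ≥ L₀, ∑ v ∈ box L, ∑ v' ∈ box L, Q.real {p | Cl C v v' p} ≤
      ε * ((box L).card : ℝ) ^ 2 := by
  obtain ⟨L₀, hL₀⟩ := cl_small hW C hε
  refine ⟨L₀, fun L hL => ?_⟩
  have h := hL₀ L hL
  have hfin : ∀ A : Set XX, Q A ≠ ⊤ := fun A =>
    (lt_of_le_of_lt (measure_mono (Set.subset_univ _)) hW.fin).ne
  have h1 : ∑ v ∈ box L, ∑ v' ∈ box L, Q.real {p | Cl C v v' p} =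
      (∑ v ∈ box L, ∑ v' ∈ box L, Q {p | Cl C v v' p}).toReal := by
    rw [ENNReal.toReal_sum fun v _ => ENNReal.sum_ne_top.2 fun v' _ => hfin _]
    refine Finset.sum_congr rfl fun v _ => ?_
    rw [ENNReal.toReal_sum fun v' _ => hfin _]
    rfl
  rw [h1]
  exact ENNReal.toReal_le_of_le_ofReal (by positivity) h

/-! ### probabilistic part -/

section prob

variable {R : Measure Om} [IsProbabilityMeasure R]

/-- law of the pair of the replicas `i`, `j` -/
theorem real_le_QQ {i j : Fin 3} {g : Gm}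
    (hlaw : (R.restrict (Df i j g)).map (pr i j g) = QQ R) (A : Set XX) :
    R.real {z | z ∈ Df i j g ∧ pr i j g z ∈ A} ≤ (QQ R).real A := by
  have h1 : R {z | z ∈ Df i j g ∧ pr i j g z ∈ A} ≤ QQ R A := by
    rw [← hlaw]
    refine le_trans (le_of_eq ?_) (Measure.le_map_apply (measurable_pr i j g).aemeasurable A)
    rw [Measure.restrict_apply' (measurableSet_Df i j g)]
    congr 1
    ext z
    simp only [Set.mem_ofPred_eq, Set.mem_inter_iff, Set.mem_preimage]
    tauto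
  have h2 : QQ R A ≠ ⊤ := by
    have h3 : QQ R Set.univ ≤ 1 := by
      unfold QQ
      rw [Measure.map_apply (measurable_pr 0 1 g0) MeasurableSet.univ, Set.preimage_univ,
        Measure.restrict_apply_univ]
      exact prob_le_one
    exact ne_top_of_le_ne_top ENNReal.one_ne_top ((measure_mono (Set.subset_univ _)).trans h3)
  exact ENNReal.toReal_mono h2 h1

omit [IsProbabilityMeasure R] in
theorem ae_of_QQ {i j : Fin 3} {g : Gm}
    (hlaw : (R.restrict (Df i j g)).map (pr i j g) = QQ R) {P : XX → Prop}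
    (h : ∀ᵐ p ∂(QQ R), P p) : ∀ᵐ z ∂(R), z ∈ Df i j g → P (pr i j g z) := by
  rw [← hlaw] at h
  exact (ae_restrict_iff' (measurableSet_Df i j g)).1
    (ae_of_ae_map (measurable_pr i j g).aemeasurable h)

/-- two toggles, two different replicas -/
theorem second_toggle (hact : ∀ g, MeasurePreserving (aO g) R R) {E : Set Om}
    (hE : MeasurableSet E) (F : Finset Vx) :
    (R.real E * F.card) ^ 2 ≤ ∑ x ∈ F, ∑ x' ∈ F, R.real (E ∩ aO (txy x x') ⁻¹' E) := by
  refine second_moment F (fun x => aO (txy 0 x)) (fun x x' => aO (txy x x')) (fun x _ => hact _)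
    (fun x _ x' _ z => ?_) hE (fun x _ x' _ => (hact _).measurable hE)
  show aO (txy x x') (aO (txy 0 x) z) = aO (txy 0 x') z
  rw [aO_aO, ← gad_txy 0 x x', gad_comm (txy 0 x) (txy 0 x'), gad_assoc, gad_self, gad_g0]

theorem isFiniteMeasure_QQ : IsFiniteMeasure (QQ R) := by
  constructor
  unfold QQ
  rw [Measure.map_apply (measurable_pr 0 1 g0) MeasurableSet.univ, Set.preimage_univ,
    Measure.restrict_apply_univ]
  exact measure_lt_top _ _

/-- the event that a plaquette is far from a wall -/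
def bad (K : ℕ) (x x' : Vx) (q : (Fin 3 × Fin 3) × Bool × Bool) : Set Om :=
  if q.1.1 = q.1.2 then ∅ else
    {z | z ∈ Df q.1.1 q.1.2 (if q.2.1 then txy x x' else g0) ∧
      pr q.1.1 q.1.2 (if q.2.1 then txy x x' else g0) z ∈
        {p | ¬ Nr K K (if q.2.2 then x' else x) p}}

/-- **Section 3.** At most two of three replicas are different. -/
theorem no_three (hact : ∀ g, MeasurePreserving (aO g) R R)
    (hok : ∀ᵐ z ∂(R), ∀ i, Ok z.1 (rp z i))
    (hlaw : ∀ (i j : Fin 3) (g : Gm), i ≠ j → (R.restrict (Df i j g)).map (pr i j g) = QQ R)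
    (hW : WQ (QQ R)) (hone : ∀ᵐ p ∂(QQ R), One p) :
    R {z | ∀ i j : Fin 3, i ≠ j → z ∈ Df i j g0} = 0 := by
  classical
  have := isFiniteMeasure_QQ (R := R)
  set E : Set Om := {z | ∀ i j : Fin 3, i ≠ j → z ∈ Df i j g0} with hE
  have hEm : MeasurableSet E := by
    have h1 : E = ⋂ i : Fin 3, ⋂ j : Fin 3, ({_z | i = j} ∪ Df i j g0) := by
      ext z
      simp only [hE, Set.mem_ofPred_eq, Set.mem_iInter, Set.mem_union]
      refine forall_congr' fun i => forall_congr' fun j => ?_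
      tauto
    rw [h1]
    exact MeasurableSet.iInter fun i => MeasurableSet.iInter fun j =>
      (MeasurableSet.const _).union (measurableSet_Df i j g0)
  by_contra hne
  set p : ℝ := R.real E with hp
  have hp0 : 0 < p := ENNReal.toReal_pos hne (measure_ne_top _ _)
  -- near
  obtain ⟨K, hK⟩ := near_small (Q := QQ R) hW.inv (hone.mono fun q hq => hq.2.1)
    (δ := p ^ 2 / 288) (by positivity)
  have hK' : ∀ x, (QQ R).real {q | ¬ Nr K K x q} ≤ p ^ 2 / 288 := fun x =>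
    ENNReal.toReal_le_of_le_ofReal (by positivity) (hK K le_rfl x)
  set bK : ℝ := ((box K).card : ℝ) with hbK
  have hbK0 : 0 < bK := by rw [hbK, card_box']; positivity
  obtain ⟨L₀, hL₀⟩ := cl_small_real hW (8 * (K : ℝ)) (ε := p ^ 2 / (64 * bK ^ 2)) (by positivity)
  obtain ⟨L, hL⟩ : ∃ L, L = L₀ + K := ⟨_, rfl⟩
  obtain ⟨B, hB⟩ : ∃ B : ℝ, B = ((box L).card : ℝ) := ⟨_, rfl⟩
  have hB0 : 0 < B := by rw [hB, card_box']; positivity
  have hB4 : ((box (L + K)).card : ℝ) ≤ 4 * B := by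
    rw [hB]; exact card_box_add_le (by omega)
  let q : Vx → Vx → ℝ := fun v v' => (QQ R).real {s | Cl (8 * (K : ℝ)) v v' s}
  -- one pair
  have hpair : ∀ x x' : Vx, R.real (E ∩ aO (txy x x') ⁻¹' E) ≤
      p ^ 2 / 8 + ∑ a ∈ box K, ∑ b ∈ box K, q (x + a) (x' + b) := by
    intro x x'
    let cs : Vx × Vx → Set Om := fun c =>
      {z | z ∈ Df 0 1 g0 ∧ pr 0 1 g0 z ∈ {s | Cl (8 * (K : ℝ)) (x + c.1) (x' + c.2) s}}
    have h1 : R (E ∩ aO (txy x x') ⁻¹' E) ≤
        R ((⋃ i ∈ (Finset.univ : Finset ((Fin 3 × Fin 3) × Bool × Bool)), bad K x x' i) ∪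
          ⋃ c ∈ box K ×ˢ box K, cs c) := by
      apply measure_mono_ae
      have hones : ∀ᵐ z ∂(R), ∀ (i j : Fin 3), i ≠ j →
          (z ∈ Df i j g0 → One (pr i j g0 z)) ∧
          (z ∈ Df i j (txy x x') → One (pr i j (txy x x') z)) := by
        rw [ae_all_iff]; intro i
        rw [ae_all_iff]; intro j
        by_cases hij : i = j
        · exact Eventually.of_forall fun z h => absurd hij h
        · filter_upwards [ae_of_QQ (hlaw i j g0 hij) hone,
            ae_of_QQ (hlaw i j (txy x x') hij) hone] with z h1 h2 _ using ⟨h1, h2⟩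
      filter_upwards [hok, hones] with z hz h2
      rintro ⟨hz1, hz2⟩
      have hz2' : ∀ i j : Fin 3, i ≠ j → z ∈ Df i j (txy x x') := by
        intro i j hij
        have h3 := hz2 i j hij
        rw [mem_Df_aO, gad_g0] at h3
        exact h3
      by_cases hbad : ∃ i, z ∈ bad K x x' i
      · obtain ⟨i, hi⟩ := hbad
        left
        exact Set.mem_iUnion₂.2 ⟨i, Finset.mem_univ _, hi⟩
      · push Not at hbad
        right
        have hn : ∀ i j : Fin 3, i ≠ j → Nr K K x (pr i j g0 z) ∧ Nr K K x' (pr i j g0 z) ∧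
            Nr K K x (pr i j (txy x x') z) ∧ Nr K K x' (pr i j (txy x x') z) := by
          intro i j hij
          have hh : ∀ b c : Bool, Nr K K (if c then x' else x)
              (pr i j (if b then txy x x' else g0) z) := by
            intro b c
            by_contra hcon
            apply hbad ((i, j), b, c)
            unfold bad
            rw [if_neg (show ¬ ((i, j), b, c).1.1 = ((i, j), b, c).1.2 from hij)]
            refine ⟨?_, hcon⟩
            cases b
            · exact hz1 i j hij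
            · exact hz2' i j hij
          exact ⟨hh false false, hh false true, hh true false, hh true true⟩
        obtain ⟨v, v', h3, h4, h5⟩ := three_det hz (fun i j hij => (h2 i j hij).1 (hz1 i j hij))
          (fun i j hij => (h2 i j hij).2 (hz2' i j hij)) hn
        refine Set.mem_iUnion₂.2 ⟨(v - x, v' - x'), Finset.mem_product.2 ⟨h3, h4⟩, hz1 0 1 (by decide), ?_⟩
        show Cl (8 * (K : ℝ)) (x + (v - x)) (x' + (v' - x')) (pr 0 1 g0 z)
        rwa [add_sub_cancel, add_sub_cancel]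
    have h2 : R.real (E ∩ aO (txy x x') ⁻¹' E) ≤
        R.real ((⋃ i ∈ (Finset.univ : Finset ((Fin 3 × Fin 3) × Bool × Bool)), bad K x x' i) ∪
          ⋃ c ∈ box K ×ˢ box K, cs c) := ENNReal.toReal_mono (measure_ne_top _ _) h1
    refine h2.trans ((measureReal_union_le _ _).trans (add_le_add ?_ ?_))
    · refine (measureReal_biUnion_finset_le _ _).trans ?_
      calc ∑ i ∈ (Finset.univ : Finset ((Fin 3 × Fin 3) × Bool × Bool)), R.real (bad K x x' i)
          ≤ ∑ _i ∈ (Finset.univ : Finset ((Fin 3 × Fin 3) × Bool × Bool)), p ^ 2 / 288 := by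
            refine Finset.sum_le_sum fun i _ => ?_
            unfold bad
            by_cases h : i.1.1 = i.1.2
            · rw [if_pos h, measureReal_empty]; positivity
            · rw [if_neg h]
              exact (real_le_QQ (hlaw _ _ _ h) _).trans (hK' _)
        _ = p ^ 2 / 8 := by
            rw [Finset.sum_const, Finset.card_univ]
            simp only [Fintype.card_prod, Fintype.card_fin, Fintype.card_bool]
            ring
    · refine (measureReal_biUnion_finset_le _ _).trans ?_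
      rw [Finset.sum_product]
      exact Finset.sum_le_sum fun a _ => Finset.sum_le_sum fun b _ =>
        real_le_QQ (hlaw 0 1 g0 (by decide)) _
  have h3 := second_toggle hact hEm (box L)
  have hs1 : ∑ x ∈ box L, ∑ x' ∈ box L, ∑ a ∈ box K, ∑ b ∈ box K, q (x + a) (x' + b) ≤
      bK ^ 2 * ∑ v ∈ box (L + K), ∑ v' ∈ box (L + K), q v v' :=
    sum_shift_le2 (q := q) (fun v v' => measureReal_nonneg) L K
  have hs2 : ∑ v ∈ box (L + K), ∑ v' ∈ box (L + K), q v v' ≤
      p ^ 2 / (64 * bK ^ 2) * (4 * B) ^ 2 := by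
    refine (hL₀ (L + K) (by omega)).trans ?_
    exact mul_le_mul_of_nonneg_left (pow_le_pow_left₀ (Nat.cast_nonneg _) hB4 2) (by positivity)
  have h4 : ∑ x ∈ box L, ∑ x' ∈ box L, R.real (E ∩ aO (txy x x') ⁻¹' E) ≤
      p ^ 2 / 8 * B ^ 2 + bK ^ 2 * (p ^ 2 / (64 * bK ^ 2) * (4 * B) ^ 2) := by
    calc _ ≤ ∑ x ∈ box L, ∑ x' ∈ box L,
          (p ^ 2 / 8 + ∑ a ∈ box K, ∑ b ∈ box K, q (x + a) (x' + b)) :=
          Finset.sum_le_sum fun x _ => Finset.sum_le_sum fun x' _ => hpair x x'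
      _ = p ^ 2 / 8 * B ^ 2 +
          ∑ x ∈ box L, ∑ x' ∈ box L, ∑ a ∈ box K, ∑ b ∈ box K, q (x + a) (x' + b) := by
          simp only [Finset.sum_add_distrib, Finset.sum_const, nsmul_eq_mul, hB]
          ring
      _ ≤ _ := add_le_add le_rfl (hs1.trans (mul_le_mul_of_nonneg_left hs2 (sq_nonneg bK)))
  have h5 : bK ^ 2 * (p ^ 2 / (64 * bK ^ 2) * (4 * B) ^ 2) = p ^ 2 * B ^ 2 / 4 := by
    field_simp
    ring
  rw [h5] at h4
  rw [← hB] at h3
  have h6 : (p * B) ^ 2 ≤ p ^ 2 / 8 * B ^ 2 + p ^ 2 * B ^ 2 / 4 := h3.trans h4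
  have h7 : 0 < p ^ 2 * B ^ 2 := by positivity
  nlinarith

end prob

end Pool.Agent.Helper63.MS
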