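import Pool.Agent.Helper63.MS.Pairs

set_option autoImplicit false

/-! Sections 1d and 2 for the laws `IsW` of `MM.DefsB`. The hypotheses `hdeg, hac, hcl, hrec` are
conclusions of the section on replica pairs. -/

namespace Pool.Agent.Helper63.MS

open MeasureTheory Filter Topology Pool.Agent.Helper60.TJ
open Pool.Agent.Helper61.MM
open scoped symmDiff ENNReal

variable {lam : Measure ℝ} {Q : Measure XX}

theorem wq (hQ : IsW lam Q) (hdeg : ∀ᵐ p ∂Q, Deg2 (wl p))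
    (hac : ∀ᵐ p ∂Q, ∀ C : Finset Ed, IsCyc C → (∀ e ∈ C, wl p e = true) → C = ∅)
    (hcl : ∀ K : ℝ, Tendsto (fun N : ℕ => (N : ℝ)⁻¹ * ∑ n ∈ Finset.range N,
      (nuM Q {y | |Vn n y| ≤ K}).toReal) atTop (𝓝 0)) : WQ Q where
  fin := hQ.fin.measure_univ_lt_top
  inv := hQ.inv
  deg := hdeg
  ac := hac
  cl := hcl

theorem exists_onW {p : XX} (h : p.2.1 ≠ p.2.2) : ∃ v, OnW (wl p) v := by
  by_contra hcon
  push Not at hcon
  apply h
  funext e
  have h1 : ∀ d, wl p (edg e.1 d) ≠ true := fun d hd => hcon e.1 ⟨d, hd⟩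
  have h2 : wl p e ≠ true := by
    obtain ⟨v, b⟩ := e
    cases b
    · exact h1 3
    · exact h1 2
  unfold wl bx at h2
  revert h2
  cases p.2.1 e <;> cases p.2.2 e <;> decide

/-- the wall is one bi-infinite path -/
theorem one_ae (hQ : IsW lam Q) (hW : WQ Q)
    (hrec : ∀ᵐ p ∂Q, ∀ A : Ed → Bool, Sat (wl p) A → bx p.2.1 A ∈ GS (wt p.1) (par p.2.1)) :
    ∀ᵐ p ∂Q, One p := by
  filter_upwards [hQ.nice, hW.deg, single_wall hW hrec] with p h1 h2 h3
  exact ⟨h2, exists_onW h1.2.2.2.2, h3⟩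

/-- points at index distance `< n` with close heights have small density -/
theorem hg_small (hW : WQ Q) {C ε δ : ℝ} (hε : 0 < ε) (hδ : 0 < δ) :
    ∃ N : ℕ, ∀ n ≥ N, ∃ L₀ : ℕ, ∀ L ≥ L₀, Q {p | ∃ G : Finset Vx, G ⊆ box L ∧ HG n C G p ∧
      ε * (box L).card ≤ G.card} ≤ ENNReal.ofReal δ :=
  HG_small hW C ε hε (ENNReal.ofReal_pos.2 hδ)

theorem measurableSet_Cl (C : ℝ) (v v' : Vx) : MeasurableSet {p : XX | Cl C v v' p} :=
  measurableSet_PS C (v, v')

/-- pairs of wall points with close heights have density zero -/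
theorem cl_small (hW : WQ Q) (C : ℝ) {ε : ℝ} (hε : 0 < ε) :
    ∃ L₀ : ℕ, ∀ L ≥ L₀, ∑ v ∈ box L, ∑ v' ∈ box L, Q {p | Cl C v v' p} ≤
      ENNReal.ofReal (ε * ((box L).card : ℝ) ^ 2) := by
  obtain ⟨L₀, hL₀⟩ := pair_small hW C hε
  refine ⟨L₀, fun L hL => ?_⟩
  have h := hL₀ L hL
  rw [Finset.sum_product] at h
  exact h

theorem mem_box_abs {v : Vx} {L : ℕ} : v ∈ box L ↔ |v.1| ≤ L ∧ |v.2| ≤ L := by
  unfold box
  simp only [Finset.mem_product, Finset.mem_Icc, abs_le]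

theorem exists_box (S : Finset Ed) : ∃ L : ℕ, ∀ e ∈ S, e.1 ∈ box L := by
  classical
  induction S using Finset.induction_on with
  | empty => exact ⟨0, by simp⟩
  | insert e S _ ih =>
    obtain ⟨L, hL⟩ := ih
    refine ⟨L + (e.1.1.natAbs + e.1.2.natAbs), fun e' he' => ?_⟩
    rw [Finset.mem_insert] at he'
    rcases he' with rfl | he'
    · rw [mem_box_abs]
      push_cast
      have h1 := abs_nonneg e'.1.1
      have h2 := abs_nonneg e'.1.2
      have h3 : (0 : ℤ) ≤ L := Int.natCast_nonneg L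
      constructor <;> linarith
    · exact box_mono (by omega) (hL e' he')

theorem sgm_mono {L L' L'' : ℕ} (h : L' ≤ L'') {p : XX} (hs : Sgm L L' p) : Sgm L L'' p := by
  intro v hv v' hv' h1 h2
  obtain ⟨X, hX, hXp⟩ := hs v hv v' hv' h1 h2
  exact ⟨X, fun e he => ⟨(hX e he).1, box_mono h (hX e he).2⟩, hXp⟩

theorem exists_sgm {p : XX} (hp : One p) (L : ℕ) : ∃ L', Sgm L L' p := by
  classical
  have h1 : ∀ q : Vx × Vx, ∃ M : ℕ, OnW (wl p) q.1 → OnW (wl p) q.2 →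
      ∃ X : Finset Ed, (∀ e ∈ X, wl p e = true ∧ e.1 ∈ box M) ∧
        par (ind X) = vx (dl q.1) (dl q.2) := by
    intro q
    by_cases hq : OnW (wl p) q.1 ∧ OnW (wl p) q.2
    · obtain ⟨X, hX, hXp⟩ := hp.2.2 _ _ hq.1 hq.2
      obtain ⟨M, hM⟩ := exists_box X
      exact ⟨M, fun _ _ => ⟨X, fun e he => ⟨hX e he, hM e he⟩, hXp⟩⟩
    · exact ⟨0, fun h2 h3 => absurd ⟨h2, h3⟩ hq⟩
  choose M hM using h1
  refine ⟨(box L ×ˢ box L).sup M, fun v hv v' hv' h2 h3 => ?_⟩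
  obtain ⟨X, hX, hXp⟩ := hM (v, v') h2 h3
  have h4 : M (v, v') ≤ (box L ×ˢ box L).sup M :=
    Finset.le_sup (f := M) (Finset.mem_product.2 ⟨hv, hv'⟩)
  exact ⟨X, fun e he => ⟨(hX e he).1, box_mono h4 (hX e he).2⟩, hXp⟩

theorem measurableSet_Sgm (L L' : ℕ) : MeasurableSet {p : XX | Sgm L L' p} := by
  have h0 : {p : XX | Sgm L L' p} = ⋂ v ∈ box L, ⋂ v' ∈ box L,
      ({p | OnW (wl p) v}ᶜ ∪ ({p | OnW (wl p) v'}ᶜ ∪
        ⋃ X ∈ {X : Finset Ed | (∀ e ∈ X, e.1 ∈ box L') ∧ par (ind X) = vx (dl v) (dl v')},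
          ⋂ e ∈ X, {p | wl p e = true})) := by
    ext p
    unfold Sgm
    simp only [Set.mem_ofPred_eq, Set.mem_iInter, Set.mem_union, Set.mem_compl_iff,
      Set.mem_iUnion, exists_prop]
    constructor
    · intro h v hv v' hv'
      by_cases h1 : OnW (wl p) v
      · by_cases h2 : OnW (wl p) v'
        · obtain ⟨X, hX, hXp⟩ := h v hv v' hv' h1 h2
          exact Or.inr (Or.inr ⟨X, ⟨fun e he => (hX e he).2, hXp⟩, fun e he => (hX e he).1⟩)
        · exact Or.inr (Or.inl h2)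
      · exact Or.inl h1
    · intro h v hv v' hv' h1 h2
      rcases h v hv v' hv' with h3 | h3 | ⟨X, ⟨hX, hXp⟩, h4⟩
      · exact absurd h1 h3
      · exact absurd h2 h3
      · exact ⟨X, fun e he => ⟨h4 e he, hX e he⟩, hXp⟩
  rw [h0]
  refine Finset.measurableSet_biInter _ fun v _ => Finset.measurableSet_biInter _ fun v' _ => ?_
  refine (measurable_wl (measurableSet_OnW v)).compl.union
    ((measurable_wl (measurableSet_OnW v')).compl.union ?_)
  refine MeasurableSet.biUnion (Set.to_countable _) fun X _ => ?_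
  exact Finset.measurableSet_biInter X fun e _ => measurable_wl (measurableSet_coord e true)

/-- wall segments between points of a box stay in a larger box with large probability -/
theorem sgm_small [IsFiniteMeasure Q] (h1 : ∀ᵐ p ∂Q, One p) (L : ℕ) {δ : ℝ} (hδ : 0 < δ) :
    ∃ L₀ : ℕ, ∀ L' ≥ L₀, Q {p | ¬ Sgm L L' p} ≤ ENNReal.ofReal δ := by
  have hanti : Antitone fun L' : ℕ => {p : XX | ¬ Sgm L L' p} := fun a b hab p hp hs =>
    hp (sgm_mono hab hs)
  have hzero : Q (⋂ L' : ℕ, {p : XX | ¬ Sgm L L' p}) = 0 := by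
    rw [measure_eq_zero_iff_ae_notMem]
    filter_upwards [h1] with p hp hmem
    obtain ⟨L', hL'⟩ := exists_sgm hp L
    exact (Set.mem_iInter.1 hmem L') hL'
  have ht := tendsto_measure_iInter_atTop (μ := Q)
    (fun L' : ℕ => ((measurableSet_Sgm L L').compl.nullMeasurableSet :
      NullMeasurableSet {p : XX | ¬ Sgm L L' p} Q)) hanti ⟨0, measure_ne_top _ _⟩
  have hz : Q (⋂ L' : ℕ, {p : XX | Sgm L L' p}ᶜ) = 0 := hzero
  rw [hz] at ht
  obtain ⟨L₀, hL₀⟩ := eventually_atTop.1 ((tendsto_order.1 ht).2 _ (ENNReal.ofReal_pos.2 hδ))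
  exact ⟨L₀, fun L' hL' => (hL₀ L' hL').le⟩

end Pool.Agent.Helper63.MS
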