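import Pool.Agent.Helper63.MS.Window

set_option autoImplicit false

/-! Probabilistic form of the window lemma. -/

namespace Pool.Agent.Helper63.MS

open MeasureTheory Filter Topology Pool.Agent.Helper60.TJ
open Pool.Agent.Helper61.MM (HG Cl One)
open scoped symmDiff ENNReal

/-- laws of pairs of locally minimal T-joins, as used for replicas -/
structure WQ (Q : Measure XX) : Prop where
  fin : Q Set.univ < ⊤
  inv : ∀ u : Vx, MeasurePreserving (shX u) Q Q
  deg : ∀ᵐ p ∂Q, Deg2 (wl p)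
  ac : ∀ᵐ p ∂Q, ∀ C : Finset Ed, IsCyc C → (∀ e ∈ C, wl p e = true) → C = ∅
  cl : ∀ K : ℝ, Tendsto (fun N : ℕ => (N : ℝ)⁻¹ * ∑ n ∈ Finset.range N,
      (nuM Q {y | |Vn n y| ≤ K}).toReal) atTop (𝓝 0)

theorem mw (v : Vx) (d : Dir) : MeasurableSet {p : XX | wl p (edg v d) = true} :=
  measurableSet_eq_fun ((measurable_pi_apply (edg v d)).comp measurable_wl) measurable_const

theorem nuM_apply (Q : Measure XX) {A : Set YY} (hA : MeasurableSet A) :
    nuM Q A = ∑ d : Dir, Q {p | wl p (edg 0 d) = true ∧ (p, d) ∈ A} := by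
  unfold nuM
  rw [Measure.finsetSum_apply]
  refine Finset.sum_congr rfl fun d _ => ?_
  have hm : Measurable (fun p : XX => (p, d)) := measurable_id.prodMk measurable_const
  rw [Measure.map_apply hm hA, Measure.restrict_apply (hm hA)]
  congr 1
  ext p
  simp only [Set.mem_inter_iff, Set.mem_preimage, Set.mem_ofPred_eq]
  tauto

theorem nuM_lt {Q : Measure XX} (h : Q Set.univ < ⊤) (A : Set YY) : nuM Q A < ⊤ := by
  refine lt_of_le_of_lt (measure_mono (Set.subset_univ A)) ?_
  rw [nuM_apply Q MeasurableSet.univ]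
  exact ENNReal.sum_lt_top.2 fun d _ => lt_of_le_of_lt (measure_mono (Set.subset_univ _)) h

/-- the event counted by `WP` -/
def SW (C : ℝ) (m : ℕ) (d : Dir) : Set XX := {p | wl p (edg 0 d) = true ∧ |Vn m (p, d)| ≤ C}

theorem measurableSet_SW (C : ℝ) (m : ℕ) (d : Dir) : MeasurableSet (SW C m d) := by
  refine MeasurableSet.inter (mw 0 d) ?_
  have h5 : Measurable fun p : XX => Vn m (p, d) :=
    (measurable_Vn m).comp (measurable_id.prodMk measurable_const)
  exact measurableSet_le h5.abs measurable_const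

theorem card_WP (p : XX) (L : ℕ) (C : ℝ) (m : ℕ) :
    ((WP p L C m).card : ℝ≥0∞) = ∑ q ∈ box L ×ˢ (Finset.univ : Finset Dir),
      (shX q.1 ⁻¹' SW C m q.2).indicator 1 p := by
  classical
  unfold WP
  rw [Finset.card_filter]
  push_cast
  refine Finset.sum_congr rfl fun q _ => ?_
  have h : (wl p (edg q.1 q.2) = true ∧ |Vn m (shX q.1 p, q.2)| ≤ C) ↔ p ∈ shX q.1 ⁻¹' SW C m q.2 := by
    unfold SW
    rw [Set.mem_preimage, Set.mem_ofPred_eq, wl_shX, sh_edg, zero_add]
  by_cases hq : p ∈ shX q.1 ⁻¹' SW C m q.2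
  · rw [if_pos (h.2 hq), Set.indicator_of_mem hq]; rfl
  · rw [if_neg (fun h' => hq (h.1 h')), Set.indicator_of_notMem hq]

theorem measurable_WP (L : ℕ) (C : ℝ) (m : ℕ) :
    Measurable fun p : XX => ((WP p L C m).card : ℝ≥0∞) := by
  simp only [card_WP]
  exact Finset.measurable_fun_sum _ fun q _ =>
    measurable_one.indicator ((measurable_shX q.1) (measurableSet_SW C m q.2))

theorem lintegral_WP {Q : Measure XX} (hinv : ∀ u : Vx, MeasurePreserving (shX u) Q Q)
    (L : ℕ) (C : ℝ) (m : ℕ) :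
    ∫⁻ p, ((WP p L C m).card : ℝ≥0∞) ∂Q = (box L).card * nuM Q {y | |Vn m y| ≤ C} := by
  simp only [card_WP]
  rw [lintegral_finsetSum _ fun q _ =>
    measurable_one.indicator ((measurable_shX q.1) (measurableSet_SW C m q.2))]
  have h1 : ∀ q ∈ box L ×ˢ (Finset.univ : Finset Dir),
      ∫⁻ p, (shX q.1 ⁻¹' SW C m q.2).indicator 1 p ∂Q = Q (SW C m q.2) := by
    intro q _
    rw [lintegral_indicator_one ((measurable_shX q.1) (measurableSet_SW C m q.2)),
      (hinv q.1).measure_preimage (measurableSet_SW C m q.2).nullMeasurableSet]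
  rw [Finset.sum_congr rfl h1, Finset.sum_product]
  simp only [Finset.sum_const, nsmul_eq_mul]
  congr 1
  rw [nuM_apply Q (measurableSet_le (measurable_Vn m).abs measurable_const)]
  rfl

theorem card_box' (L : ℕ) : (box L).card = (2 * L + 1) * (2 * L + 1) := by
  unfold box
  rw [Finset.card_product, Int.card_Icc]
  have : ((L : ℤ) + 1 - -(L : ℤ)).toNat = 2 * L + 1 := by omega
  rw [this]

/-- **Block lemma, strong form.** A set of wall points of the box `box L` such that points at index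
distance `< n` have energy difference at most `C` has, with large probability, small density. -/
theorem HG_small {Q : Measure XX} (hQ : WQ Q) (C c : ℝ) (hc : 0 < c) {η : ℝ≥0∞} (hη : 0 < η) :
    ∃ N : ℕ, ∀ n ≥ N, ∃ L₀ : ℕ, ∀ L ≥ L₀, Q {p | ∃ G : Finset Vx, G ⊆ box L ∧ HG n C G p ∧
      c * (box L).card ≤ G.card} ≤ η := by
  set η' : ℝ := (min η 1).toReal with hη'
  have hmin : min η 1 ≠ ⊤ := ne_top_of_le_ne_top ENNReal.one_ne_top (min_le_right _ _)
  have hη'0 : 0 < η' := ENNReal.toReal_pos (lt_min hη one_pos).ne' hmin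
  set a : ℕ → ℝ := fun m => (nuM Q {y | |Vn m y| ≤ C}).toReal with ha
  have hev : ∀ᶠ N : ℕ in atTop, (N : ℝ)⁻¹ * ∑ n ∈ Finset.range N, a n < c ^ 2 * η' / 32 :=
    (tendsto_order.1 (hQ.cl C)).2 _ (by positivity)
  obtain ⟨N, hN⟩ := eventually_atTop.1 (hev.and (eventually_gt_atTop 0))
  refine ⟨N, fun n hnN => ?_⟩
  obtain ⟨hn, hn0⟩ := hN n hnN
  have hnpos : (0 : ℝ) < n := by exact_mod_cast hn0
  have hsum : ∑ m ∈ Finset.range n, a m ≤ n * (c ^ 2 * η' / 32) := by
    have := hn.le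
    rw [inv_mul_le_iff₀ hnpos] at this
    exact this
  refine ⟨n, fun L hL => ?_⟩
  set B : ℝ := ((box L).card : ℝ) with hB
  set B' : ℝ := ((box (L + n)).card : ℝ) with hB'
  have hBpos : 0 < B := by
    rw [hB, card_box']; positivity
  have hB'pos : 0 < B' := by
    rw [hB', card_box']; positivity
  have hBB : B' ≤ 4 * B := by
    rw [hB, hB', card_box', card_box']
    have h1 : 2 * (L + n) + 1 ≤ 2 * (2 * L + 1) := by omega
    have h2 : (2 * (L + n) + 1) * (2 * (L + n) + 1) ≤ 4 * ((2 * L + 1) * (2 * L + 1)) := by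
      calc _ ≤ (2 * (2 * L + 1)) * (2 * (2 * L + 1)) := Nat.mul_le_mul h1 h1
        _ = _ := by ring
    exact_mod_cast h2
  set t : ℝ := n * (c * B) ^ 2 / (8 * B') with ht
  have htpos : 0 < t := by rw [ht]; positivity
  let f : XX → ℝ≥0∞ := fun p => ∑ m ∈ Finset.range n, ((WP p L C m).card : ℝ≥0∞)
  have hfm : Measurable f := Finset.measurable_fun_sum _ fun m _ => measurable_WP L C m
  have hsub : Q {p | ∃ G : Finset Vx, G ⊆ box L ∧ HG n C G p ∧
      c * (box L).card ≤ G.card} ≤ Q {p | ENNReal.ofReal t ≤ f p} := by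
    apply measure_mono_ae
    filter_upwards [hQ.deg, hQ.ac] with p hdeg hac
    rintro ⟨G, hG, hcl, hcard⟩
    have h1 := window (n := n) hdeg hac hG hcl
    have h2 : (n : ℝ) * (G.card : ℝ) ^ 2 ≤
        8 * B' * ((∑ m ∈ Finset.range n, (WP p L C m).card : ℕ) : ℝ) := by
      rw [hB']
      exact_mod_cast h1
    have h3 : t ≤ ((∑ m ∈ Finset.range n, (WP p L C m).card : ℕ) : ℝ) := by
      rw [ht, div_le_iff₀ (by positivity)]
      calc n * (c * B) ^ 2 ≤ n * (G.card : ℝ) ^ 2 := by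
            apply mul_le_mul_of_nonneg_left _ hnpos.le
            exact pow_le_pow_left₀ (by positivity) hcard 2
        _ ≤ _ := h2
        _ = _ := by ring
    show ENNReal.ofReal t ≤ f p
    have h4 : f p = ENNReal.ofReal ((∑ m ∈ Finset.range n, (WP p L C m).card : ℕ) : ℝ) := by
      rw [ENNReal.ofReal_natCast]
      push_cast
      rfl
    rw [h4]
    exact ENNReal.ofReal_le_ofReal h3
  refine hsub.trans ((meas_ge_le_lintegral_div hfm.aemeasurable
    (ENNReal.ofReal_pos.2 htpos).ne' ENNReal.ofReal_ne_top).trans ?_)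
  have hint : ∫⁻ p, f p ∂Q = ENNReal.ofReal (B * ∑ m ∈ Finset.range n, a m) := by
    simp only [f]
    rw [lintegral_finsetSum _ fun m _ => measurable_WP L C m]
    simp only [lintegral_WP hQ.inv]
    rw [← Finset.mul_sum, ENNReal.ofReal_mul hBpos.le, hB, ENNReal.ofReal_natCast]
    congr 1
    rw [ENNReal.ofReal_sum_of_nonneg fun m _ => ENNReal.toReal_nonneg]
    refine Finset.sum_congr rfl fun m _ => ?_
    rw [ENNReal.ofReal_toReal (nuM_lt hQ.fin _).ne]
  rw [hint, ← ENNReal.ofReal_div_of_pos htpos]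
  have h5 : B * ∑ m ∈ Finset.range n, a m ≤ t * η' := by
    calc B * ∑ m ∈ Finset.range n, a m ≤ B * (n * (c ^ 2 * η' / 32)) :=
          mul_le_mul_of_nonneg_left hsum hBpos.le
      _ ≤ t * η' := by
          rw [ht, div_mul_eq_mul_div, le_div_iff₀ (by positivity)]
          have h6 : 0 ≤ n * c ^ 2 * η' * B := by positivity
          nlinarith [mul_le_mul_of_nonneg_left hBB h6]
  calc ENNReal.ofReal ((B * ∑ m ∈ Finset.range n, a m) / t) ≤ ENNReal.ofReal η' := by
        apply ENNReal.ofReal_le_ofReal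
        rw [div_le_iff₀ htpos]
        linarith
    _ = min η 1 := ENNReal.ofReal_toReal hmin
    _ ≤ η := min_le_left _ _

/-- **Block lemma.** A set of wall points of the box `box L` such that any two connected points have
energy difference at most `C` has, with large probability, small density. -/
theorem close_small {Q : Measure XX} (hQ : WQ Q) (C c : ℝ) (hc : 0 < c) {η : ℝ≥0∞} (hη : 0 < η) :
    ∃ L₀ : ℕ, ∀ L ≥ L₀, Q {p | ∃ G : Finset Vx, G ⊆ box L ∧ (∀ v ∈ G, OnW (wl p) v) ∧
      c * (box L).card ≤ G.card ∧ Close p C G} ≤ η := by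
  obtain ⟨N, hN⟩ := HG_small hQ C c hc hη
  obtain ⟨L₀, hL₀⟩ := hN N le_rfl
  refine ⟨L₀, fun L hL => le_trans (measure_mono_ae ?_) (hL₀ L hL)⟩
  filter_upwards [hQ.deg, hQ.ac] with p hdeg hac
  rintro ⟨G, hG, hon, hcard, hcl⟩
  exact ⟨G, hG, HG_of_close hdeg hac N hon hcl, hcard⟩

end Pool.Agent.Helper63.MS
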