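import Pool.Agent.Helper60.TJ.E2

set_option autoImplicit false

/-! Closed chains of rungs and wall pieces (deterministic). -/

namespace Pool.Agent.Helper63.MS

open MeasureTheory Pool.Agent.Helper60.TJ
open Pool.Agent.Helper60.TJ.E2 (comp comp_true sat_comp cn_da par_filter_of par_filter_not)
open scoped symmDiff

/-- induction along lattice paths -/
theorem reach_all {P : Vx → Prop} {v : Vx} (h0 : P v) (hs : ∀ u d, P u → P (u + stp d)) :
    ∀ u, P u := by
  have hx : ∀ (n : ℤ) (u : Vx), P u → P (u + (n, 0)) := by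
    intro n u hu
    induction n using Int.induction_on with
    | zero =>
      have e : u + ((0 : ℤ), (0 : ℤ)) = u := add_zero u
      rw [e]; exact hu
    | succ i ih =>
      have h := hs _ 0 ih
      have e : u + ((i : ℤ), (0 : ℤ)) + stp 0 = u + ((i : ℤ) + 1, 0) := by
        obtain ⟨a, b⟩ := u; simp [stp]; ring
      rwa [e] at h
    | pred i ih =>
      have h := hs _ 2 ih
      have e : u + (-(i : ℤ), (0 : ℤ)) + stp 2 = u + (-(i : ℤ) - 1, 0) := by
        obtain ⟨a, b⟩ := u; simp [stp]; ring
      rwa [e] at h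
  have hy : ∀ (n : ℤ) (u : Vx), P u → P (u + (0, n)) := by
    intro n u hu
    induction n using Int.induction_on with
    | zero =>
      have e : u + ((0 : ℤ), (0 : ℤ)) = u := add_zero u
      rw [e]; exact hu
    | succ i ih =>
      have h := hs _ 1 ih
      have e : u + ((0 : ℤ), (i : ℤ)) + stp 1 = u + (0, (i : ℤ) + 1) := by
        obtain ⟨a, b⟩ := u; simp [stp]; ring
      rwa [e] at h
    | pred i ih =>
      have h := hs _ 3 ih
      have e : u + ((0 : ℤ), -(i : ℤ)) + stp 3 = u + (0, -(i : ℤ) - 1) := by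
        obtain ⟨a, b⟩ := u; simp [stp]; ring
      rwa [e] at h
  intro u
  have h := hy (u.2 - v.2) _ (hx (u.1 - v.1) v h0)
  have e : v + (u.1 - v.1, (0 : ℤ)) + ((0 : ℤ), u.2 - v.2) = u := by
    obtain ⟨a, b⟩ := v; obtain ⟨c, d⟩ := u; simp
  rwa [e] at h

/-- two components are joined by a rung -/
theorem exists_rung {W : Ed → Bool} {v v' : Vx} (hv : OnW W v) (hv' : OnW W v')
    (hne : ¬ Cn W v v') : ∃ (y z : Vx) (X : Finset Ed), OnW W y ∧ OnW W z ∧ ¬ Cn W y z ∧
      (∀ e ∈ X, W e = false) ∧ par (ind X) = vx (dl y) (dl z) := by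
  by_contra hcon
  have hcon' : ∀ (y z : Vx) (X : Finset Ed), OnW W y → OnW W z → (∀ e ∈ X, W e = false) →
      par (ind X) = vx (dl y) (dl z) → Cn W y z := by
    intro y z X h1 h2 h3 h4
    by_contra h5
    exact hcon ⟨y, z, X, h1, h2, h5, h3, h4⟩
  have hP := reach_all (v := v) (P := fun u => ∃ (y : Vx) (X : Finset Ed), OnW W y ∧ Cn W v y ∧
    (∀ e ∈ X, W e = false) ∧ par (ind X) = vx (dl y) (dl u)) ?_ ?_ v'
  · obtain ⟨y, X, h1, h2, h3, h4⟩ := hP
    exact hne (h2.trans (hcon' y v' X h1 hv' h3 h4))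
  · exact ⟨v, ∅, hv, Cn.refl _ _, by simp, by rw [par_empty, vx_self]⟩
  · rintro u d ⟨y, X, h1, h2, h3, h4⟩
    by_cases hd : W (edg u d) = true
    · have hu : OnW W u := ⟨d, hd⟩
      have hu' : OnW W (u + stp d) := ⟨opp d, by rw [edg_opp]; exact hd⟩
      have h5 : Cn W v u := h2.trans (hcon' y u X h1 hu h3 h4)
      exact ⟨u + stp d, ∅, hu', h5.trans (Cn.step hd), by simp, by rw [par_empty, vx_self]⟩
    · have hd' : W (edg u d) = false := by
        cases h : W (edg u d)
        · rfl
        · exact absurd h hd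
      refine ⟨y, X ∆ {edg u d}, h1, h2, ?_, ?_⟩
      · intro e he
        rw [Finset.mem_symmDiff, Finset.mem_singleton] at he
        rcases he with he | he
        · exact h3 e he.1
        · rw [he.1]; exact hd'
      · rw [par_ind_symmDiff, h4, par_edg]
        exact vx_trans _ _ _

/-- the edges of a piece of the wall belong to the component of its end points -/
theorem piece_cn {W : Ed → Bool} (hac : ∀ C : Finset Ed, IsCyc C → (∀ e ∈ C, W e = true) → C = ∅)
    {X : Finset Ed} (hX : ∀ e ∈ X, W e = true) {a b : Vx}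
    (hp : par (ind X) = vx (dl a) (dl b)) {e : Ed} (he : e ∈ X) : Cn W a (da e) := by
  classical
  by_contra hcon
  have hsat : Sat W (comp W fun u => ¬ Cn W a u) := sat_comp fun u u' h1 h2 h3 =>
    h1 (h3.trans h2.symm)
  set A := comp W fun u => ¬ Cn W a u with hA
  have hab : Cn W a b := ⟨X, hX, hp⟩
  have h1 : X.filter (fun e => A e = true) = ∅ := by
    refine hac _ (fun u => ?_) (fun e he => hX e (Finset.mem_filter.1 he).1)
    by_cases hu : ∃ d, A (edg u d) = true
    · obtain ⟨d, hd⟩ := hu
      rw [par_filter_of hsat hX hd, hp]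
      have h2 := comp_true.1 hd
      have h3 : ¬ Cn W a u := fun h => h2.2 (h.trans (cn_da h2.1))
      have hua : u ≠ a := by rintro rfl; exact h3 (Cn.refl _ _)
      have hub : u ≠ b := by rintro rfl; exact h3 hab
      simp [vx, dl, hua, hub]
    · push Not at hu
      exact par_filter_not fun d => by
        have := hu d
        cases h : A (edg u d)
        · rfl
        · exact absurd h this
  have h2 : e ∈ X.filter (fun e => A e = true) :=
    Finset.mem_filter.2 ⟨he, comp_true.2 ⟨hX e he, hcon⟩⟩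
  rw [h1] at h2
  exact absurd h2 (Finset.notMem_empty _)

/-- iterated symmetric difference -/
noncomputable def sd (X : ℕ → Finset Ed) : ℕ → Finset Ed
  | 0 => ∅
  | m + 1 => sd X m ∆ X m

theorem mem_sd {X : ℕ → Finset Ed} {m : ℕ} {e : Ed} (he : e ∈ sd X m) : ∃ k < m, e ∈ X k := by
  induction m with
  | zero => exact absurd he (Finset.notMem_empty _)
  | succ m ih =>
    unfold sd at he
    rw [Finset.mem_symmDiff] at he
    rcases he with he | he
    · obtain ⟨k, hk, h⟩ := ih he.1
      exact ⟨k, by omega, h⟩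
    · exact ⟨m, by omega, he.1⟩

theorem en_symmDiff_disj {w : Ed → ℝ} {U : Ed → Bool} {X Y : Finset Ed} (h : Disjoint X Y) :
    en w U (X ∆ Y) = en w U X + en w U Y := by
  have h1 : X ∆ Y = X ∪ Y := by
    rw [Finset.disjoint_left] at h
    ext e
    rw [Finset.mem_symmDiff, Finset.mem_union]
    constructor
    · rintro (h2 | h2)
      · exact Or.inl h2.1
      · exact Or.inr h2.1
    · rintro (h2 | h2)
      · exact Or.inl ⟨h2, h h2⟩
      · exact Or.inr ⟨h2, fun h3 => h h3 h2⟩
  rw [h1, en_union h]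

theorem en_sd {w : Ed → ℝ} {U : Ed → Bool} {X : ℕ → Finset Ed} {m : ℕ}
    (h : ∀ j < m, ∀ k < m, j ≠ k → Disjoint (X j) (X k)) :
    en w U (sd X m) = ∑ k ∈ Finset.range m, en w U (X k) := by
  induction m with
  | zero => simp [sd]
  | succ m ih =>
    have h1 : Disjoint (sd X m) (X m) := by
      rw [Finset.disjoint_left]
      intro e he he'
      obtain ⟨k, hk, h2⟩ := mem_sd he
      exact Finset.disjoint_left.1 (h k (by omega) m (by omega) (by omega)) h2 he'
    rw [Finset.sum_range_succ, ← ih fun j hj k hk hjk => h j (by omega) k (by omega) hjk]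
    exact en_symmDiff_disj h1

theorem tw_sd_le {w : Ed → ℝ} (hw : ∀ e, 0 ≤ w e) (X : ℕ → Finset Ed) (m : ℕ) :
    tw w (sd X m) ≤ ∑ k ∈ Finset.range m, tw w (X k) := by
  induction m with
  | zero => simp [sd]
  | succ m ih =>
    rw [Finset.sum_range_succ]
    have h1 : sd X (m + 1) ⊆ sd X m ∪ X m := by
      intro e he
      unfold sd at he
      rw [Finset.mem_symmDiff] at he
      rcases he with he | he
      · exact Finset.mem_union_left _ he.1
      · exact Finset.mem_union_right _ he.1
    have h2 : tw w (sd X m ∪ X m) ≤ tw w (sd X m) + tw w (X m) := by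
      unfold tw
      have := Finset.sum_union_inter (s₁ := sd X m) (s₂ := X m) (f := w)
      have h3 : 0 ≤ ∑ e ∈ sd X m ∩ X m, w e := Finset.sum_nonneg fun e _ => hw e
      linarith
    linarith [tw_mono hw h1]

/-- **Closed chains.** Rungs `R k` from `a k` to `b k` off the wall, wall pieces `X k` from `b k` to
`a (k+1)` in pairwise different components. -/
theorem chain {p : XX} (hac : ∀ C : Finset Ed, IsCyc C → (∀ e ∈ C, wl p e = true) → C = ∅)
    (hrec : ∀ A : Ed → Bool, Sat (wl p) A → bx p.2.1 A ∈ GS (wt p.1) (par p.2.1))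
    {n : ℕ} (hn : 1 ≤ n) {a b : ℕ → Vx} {R X : ℕ → Finset Ed}
    (hR : ∀ k < n, ∀ e ∈ R k, wl p e = false)
    (hRp : ∀ k < n, par (ind (R k)) = vx (dl (a k)) (dl (b k)))
    (hX : ∀ k < n, ∀ e ∈ X k, wl p e = true)
    (hXp : ∀ k < n, par (ind (X k)) = vx (dl (b k)) (dl (a ((k + 1) % n))))
    (hdist : ∀ j < n, ∀ k < n, Cn (wl p) (a j) (a k) → j = k) :
    ∑ k ∈ Finset.range n, |en (wt p.1) p.2.1 (X k)| ≤ ∑ k ∈ Finset.range n, tw (wt p.1) (R k) := by
  classical
  set W := wl p with hW
  set w := wt p.1 with hw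
  set U := p.2.1 with hU
  -- different pieces lie in different components
  have hbb : ∀ j < n, ∀ k < n, Cn W (b j) (b k) → j = k := by
    intro j hj k hk h
    have h1 : Cn W (a ((j + 1) % n)) (a ((k + 1) % n)) :=
      (Cn.symm ⟨X j, hX j hj, hXp j hj⟩).trans (h.trans ⟨X k, hX k hk, hXp k hk⟩)
    have h2 := hdist _ (Nat.mod_lt _ hn) _ (Nat.mod_lt _ hn) h1
    rcases Nat.lt_or_ge (j + 1) n with h3 | h3 <;> rcases Nat.lt_or_ge (k + 1) n with h4 | h4
    · rw [Nat.mod_eq_of_lt h3, Nat.mod_eq_of_lt h4] at h2; omega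
    · have h5 : k + 1 = n := by omega
      rw [Nat.mod_eq_of_lt h3, h5, Nat.mod_self] at h2; omega
    · have h5 : j + 1 = n := by omega
      rw [Nat.mod_eq_of_lt h4, h5, Nat.mod_self] at h2; omega
    · omega
  let P : Vx → Prop := fun u => ∃ k < n, 0 < en w U (X k) ∧ Cn W (b k) u
  have hsat : Sat W (comp W P) := sat_comp fun u u' ⟨k, hk, h1, h2⟩ h3 => ⟨k, hk, h1, h2.trans h3⟩
  set A := comp W P with hA
  have hAX : ∀ j < n, ∀ e ∈ X j, (A e = true ↔ 0 < en w U (X j)) := by
    intro j hj e he
    have h1 : Cn W (b j) (da e) := piece_cn hac (hX j hj) (hXp j hj) he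
    rw [hA, comp_true]
    constructor
    · rintro ⟨-, k, hk, h2, h3⟩
      have : k = j := hbb k hk j hj (h3.trans h1.symm)
      rwa [this] at h2
    · intro h
      exact ⟨hX j hj e he, j, hj, h, h1⟩
  have hdisj : ∀ j < n, ∀ k < n, j ≠ k → Disjoint (X j) (X k) := by
    intro j hj k hk hjk
    rw [Finset.disjoint_left]
    intro e he he'
    exact hjk (hbb j hj k hk ((piece_cn hac (hX j hj) (hXp j hj) he).trans
      (piece_cn hac (hX k hk) (hXp k hk) he').symm))
  have hXe : ∀ j < n, en w (bx U A) (X j) = - |en w U (X j)| := by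
    intro j hj
    by_cases h : 0 < en w U (X j)
    · rw [abs_of_pos h]
      unfold en
      rw [← Finset.sum_neg_distrib]
      refine Finset.sum_congr rfl fun e he => ?_
      have h1 : A e = true := (hAX j hj e he).2 h
      have h2 : bx U A e = !U e := by simp [bx, h1]
      rw [h2, sg_not]; ring
    · rw [abs_of_nonpos (not_lt.1 h), neg_neg]
      refine en_congr fun e he => ?_
      have h1 : A e = false := by
        cases h2 : A e
        · rfl
        · exact absurd ((hAX j hj e he).1 h2) h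
      simp [bx, h1]
  -- the cycle
  have hRW : ∀ e ∈ sd R n, W e = false := by
    intro e he
    obtain ⟨k, hk, h⟩ := mem_sd he
    exact hR k hk e h
  have hXW : ∀ e ∈ sd X n, W e = true := by
    intro e he
    obtain ⟨k, hk, h⟩ := mem_sd he
    exact hX k hk e h
  have hd : Disjoint (sd R n) (sd X n) := by
    rw [Finset.disjoint_left]
    intro e he he'
    have h1 := hRW e he
    rw [hXW e he'] at h1
    exact absurd h1 (by decide)
  have hpar : ∀ m ≤ n, 1 ≤ m → vx (par (ind (sd R m))) (par (ind (sd X m))) =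
      vx (dl (a 0)) (dl (a (m % n))) := by
    intro m hm h1
    induction m with
    | zero => omega
    | succ m ih =>
      have hstep : vx (par (ind (sd R (m + 1)))) (par (ind (sd X (m + 1)))) =
          vx (vx (par (ind (sd R m))) (par (ind (sd X m))))
            (vx (dl (a m)) (dl (a ((m + 1) % n)))) := by
        have e1 : sd R (m + 1) = sd R m ∆ R m := rfl
        have e2 : sd X (m + 1) = sd X m ∆ X m := rfl
        rw [e1, e2, par_ind_symmDiff, par_ind_symmDiff, hRp m (by omega), hXp m (by omega)]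
        funext u
        unfold vx
        generalize par (ind (sd R m)) u = r
        generalize par (ind (sd X m)) u = s
        generalize dl (a m) u = t
        generalize dl (b m) u = v
        generalize dl (a ((m + 1) % n)) u = z
        cases r <;> cases s <;> cases t <;> cases v <;> cases z <;> rfl
      rw [hstep]
      rcases Nat.eq_zero_or_pos m with rfl | hm0
      · simp only [sd, par_empty, vx_self]
        rw [vx_comm, vx_false]
      · rw [ih (by omega) hm0, Nat.mod_eq_of_lt (by omega : m < n)]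
        exact vx_trans _ _ _
  have hcyc : IsCyc (sd R n ∆ sd X n) := by
    rw [isCyc_iff, par_ind_symmDiff, hpar n le_rfl hn, Nat.mod_self, vx_self]
  have h0 := (hrec A hsat).2 _ hcyc
  rw [en_symmDiff_disj hd, en_sd hdisj] at h0
  have h1 : en (wt p.1) (bx p.2.1 A) (sd R n) ≤ ∑ k ∈ Finset.range n, tw w (R k) :=
    (en_le_tw (wt_nonneg p.1) _ _).trans (tw_sd_le (wt_nonneg p.1) R n)
  have h2 : ∑ k ∈ Finset.range n, en (wt p.1) (bx p.2.1 A) (X k) =
      - ∑ k ∈ Finset.range n, |en w U (X k)| := by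
    rw [← Finset.sum_neg_distrib]
    exact Finset.sum_congr rfl fun k hk => hXe k (Finset.mem_range.1 hk)
  rw [h2] at h0
  linarith

end Pool.Agent.Helper63.MS
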