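import Pool.Agent.Helper63.MS.Pairs
import Pool.Agent.Helper99.MS.Eig
import Pool.Agent.Helper49.MS.Rec

set_option autoImplicit false

/-! Sections 1d and 2 for the replica laws `IsR` of helper99. -/

namespace Pool.Agent.Helper63.MS

open MeasureTheory Filter Topology Pool.Agent.Helper60.TJ Pool.Agent.Helper99.MS
open scoped symmDiff ENNReal

variable {μ : Measure ℝ} [IsProbabilityMeasure μ] {Q : Measure XX}

theorem isWQ (hμ : ∀ x : ℝ, μ {x} = 0) (hQ : IsR μ Q) : WQ Q where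
  fin := hQ.fin.trans_lt ENNReal.one_lt_top
  inv := hQ.inv
  deg := hQ.deg_two
  ac := hQ.acyclic
  cl := fun K => hQ.cesaro hμ K

/-- the wall between two replicas is connected -/
theorem single (hμ : ∀ x : ℝ, μ {x} = 0) (hint : Integrable (fun x : ℝ => x) μ) (hQ : IsR μ Q) :
    ∀ᵐ p ∂Q, ∀ v v' : Vx, OnW (wl p) v → OnW (wl p) v' → Cn (wl p) v v' := by
  refine single_wall (isWQ hμ hQ) ?_
  have h1 := Pool.Agent.H49MS.recomb_ae hint ENNReal.one_ne_top
    (fun R => by rw [one_mul]; exact hQ.fst_le R) hQ.inv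
    (hQ.gs.mono fun p hp => ⟨hp.1, hp.2.1⟩)
  filter_upwards [h1, hQ.gs] with p hp hg A hA
  have h2 := hp A hA
  refine ⟨fun v => ?_, h2.2⟩
  rw [h2.1 v, hg.1.1 v]

end Pool.Agent.Helper63.MS
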