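import Pool.Agent.Helper63.MS.ForM
import Pool.Agent.Helper60.TJ.H3

set_option autoImplicit false

/-! Every plaquette is near the wall with large probability. -/

namespace Pool.Agent.Helper63.MS

open MeasureTheory Filter Topology Pool.Agent.Helper60.TJ
open Pool.Agent.Helper61.MM
open scoped symmDiff ENNReal

theorem nr_mono {M M' : ℝ} (hM : M ≤ M') {r r' : ℕ} (hr : r ≤ r') {x : Vx} {p : XX}
    (h : Nr M r x p) : Nr M' r' x p := by
  obtain ⟨v, h1, h2, X, h3, h4⟩ := h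
  exact ⟨v, box_mono hr h1, h2, X, h3, h4.trans hM⟩

theorem nr_of_sh {M : ℝ} {r : ℕ} {x : Vx} {p : XX} (h : Nr M r 0 (shX x p)) : Nr M r x p := by
  obtain ⟨v, h1, h2, X, h3, h4⟩ := h
  refine ⟨v + x, ?_, ?_, shF (-x) X, ?_, ?_⟩
  · rw [sub_zero] at h1
    rwa [add_sub_cancel_right]
  · rw [wl_shX, onW_sh] at h2
    exact h2
  · funext u
    rw [ind_shF, par_sh, h3, vx_dl_sub, zero_add]
  · refine le_trans (le_of_eq ?_) h4
    unfold tw shF
    rw [Finset.sum_map]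
    refine Finset.sum_congr rfl fun e _ => ?_
    simp [Pool.Agent.Helper60.TJ.shE, wt, shX, sh]

theorem measurableSet_Nr (M : ℝ) (r : ℕ) (x : Vx) : MeasurableSet {p : XX | Nr M r x p} := by
  have h0 : {p : XX | Nr M r x p} = ⋃ v : Vx, ({_p | v - x ∈ box r} ∩ ({p | OnW (wl p) v} ∩
      ⋃ X : Finset Ed, ({_p | par (ind X) = vx (dl x) (dl v)} ∩ {p | tw (wt p.1) X ≤ M}))) := by
    ext p
    unfold Nr
    simp only [Set.mem_ofPred_eq, Set.mem_iUnion, Set.mem_inter_iff]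
  rw [h0]
  refine MeasurableSet.iUnion fun v => (MeasurableSet.const _).inter
    ((measurable_wl (measurableSet_OnW v)).inter (MeasurableSet.iUnion fun X =>
      (MeasurableSet.const _).inter ?_))
  exact measurableSet_le (((measurable_tw X).comp measurable_wt).comp measurable_fst) measurable_const

theorem exists_mem_box (v : Vx) : ∃ L : ℕ, v ∈ box L := by
  refine ⟨v.1.natAbs + v.2.natAbs, ?_⟩
  rw [mem_box_abs]
  push_cast
  have h1 := abs_nonneg v.1
  have h2 := abs_nonneg v.2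
  constructor <;> linarith

theorem exists_nr {p : XX} (h : ∃ v, OnW (wl p) v) (x : Vx) : ∃ K : ℕ, Nr K K x p := by
  obtain ⟨v, hv⟩ := h
  obtain ⟨X, hX⟩ := H3x.exists_join x v
  obtain ⟨L, hL⟩ := exists_mem_box (v - x)
  obtain ⟨K, hK⟩ := exists_nat_ge (tw (wt p.1) X)
  have h1 : Nr K L x p := ⟨v, hL, hv, X, hX, hK⟩
  refine ⟨max K L, nr_mono ?_ (le_max_right _ _) h1⟩
  exact_mod_cast le_max_left K L

/-- every plaquette is near the wall with large probability -/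
theorem near_small {Q : Measure XX} [IsFiniteMeasure Q] (hinv : ∀ u, MeasurePreserving (shX u) Q Q)
    (hon : ∀ᵐ p ∂Q, ∃ v, OnW (wl p) v) {δ : ℝ} (hδ : 0 < δ) :
    ∃ K₀ : ℕ, ∀ K : ℕ, K₀ ≤ K → ∀ x, Q {p | ¬ Nr K K x p} ≤ ENNReal.ofReal δ := by
  have hanti : Antitone fun K : ℕ => {p : XX | ¬ Nr K K 0 p} := fun a b hab p hp hs =>
    hp (nr_mono (by exact_mod_cast hab) hab hs)
  have hzero : Q (⋂ K : ℕ, {p : XX | Nr K K 0 p}ᶜ) = 0 := by
    rw [measure_eq_zero_iff_ae_notMem]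
    filter_upwards [hon] with p hp hmem
    obtain ⟨K, hK⟩ := exists_nr hp 0
    exact (Set.mem_iInter.1 hmem K) hK
  have ht := tendsto_measure_iInter_atTop (μ := Q)
    (fun K : ℕ => ((measurableSet_Nr K K 0).compl.nullMeasurableSet :
      NullMeasurableSet {p : XX | Nr K K 0 p}ᶜ Q)) hanti ⟨0, measure_ne_top _ _⟩
  rw [hzero] at ht
  obtain ⟨K₀, hK₀⟩ := eventually_atTop.1 ((tendsto_order.1 ht).2 _ (ENNReal.ofReal_pos.2 hδ))
  refine ⟨K₀, fun K hK x => ?_⟩
  calc Q {p | ¬ Nr K K x p} ≤ Q (shX x ⁻¹' {p | Nr K K 0 p}ᶜ) :=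
        measure_mono fun p hp h => hp (nr_of_sh h)
    _ = Q {p | Nr K K 0 p}ᶜ :=
        (hinv x).measure_preimage (measurableSet_Nr K K 0).compl.nullMeasurableSet
    _ ≤ ENNReal.ofReal δ := (hK₀ K hK).le

end Pool.Agent.Helper63.MS
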