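import Pool.Agent.Helper63.MS.Single

set_option autoImplicit false

/-! Pairs of connected wall points with small energy difference have density zero. -/

namespace Pool.Agent.Helper63.MS

open MeasureTheory Filter Topology Pool.Agent.Helper60.TJ
open Pool.Agent.Helper61.MM (HG Cl One)
open scoped symmDiff ENNReal

/-- the event that `x, x'` are wall points, connected in the wall, with energy difference at
most `C` -/
def PS (C : ℝ) (q : Vx × Vx) : Set XX :=
  {p | OnW (wl p) q.1 ∧ OnW (wl p) q.2 ∧ ∃ X : Finset Ed, (∀ e ∈ X, wl p e = true) ∧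
    par (ind X) = vx (dl q.1) (dl q.2) ∧ |en (wt p.1) p.2.1 X| ≤ C}

theorem measurableSet_PS (C : ℝ) (q : Vx × Vx) : MeasurableSet (PS C q) := by
  refine (measurable_wl (measurableSet_OnW _)).inter ((measurable_wl (measurableSet_OnW _)).inter ?_)
  have h1 : {p : XX | ∃ X : Finset Ed, (∀ e ∈ X, wl p e = true) ∧
      par (ind X) = vx (dl q.1) (dl q.2) ∧ |en (wt p.1) p.2.1 X| ≤ C} =
      ⋃ X : Finset Ed, {p | (∀ e ∈ X, wl p e = true) ∧
      par (ind X) = vx (dl q.1) (dl q.2) ∧ |en (wt p.1) p.2.1 X| ≤ C} := by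
    ext p; simp
  have h0 : MeasurableSet {p : XX | ∃ X : Finset Ed, (∀ e ∈ X, wl p e = true) ∧
      par (ind X) = vx (dl q.1) (dl q.2) ∧ |en (wt p.1) p.2.1 X| ≤ C} := by
    rw [h1]
    refine MeasurableSet.iUnion fun X => ?_
    refine MeasurableSet.inter ?_ (MeasurableSet.inter (MeasurableSet.const _) ?_)
    · have h2 : {p : XX | ∀ e ∈ X, wl p e = true} = ⋂ e ∈ X, {p | wl p e = true} := by
        ext p; simp
      have h3 : MeasurableSet (⋂ e ∈ X, {p : XX | wl p e = true}) :=
        Finset.measurableSet_biInter X fun e _ => measurable_wl (measurableSet_coord e true)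
      rw [← h2] at h3
      exact h3
    · have h5 : Measurable fun p : XX => en (wt p.1) p.2.1 X :=
        (measurable_en X).comp (measurable_fst.prodMk measurable_snd.fst)
      exact measurableSet_le h5.abs measurable_const
  exact h0

open Classical in
/-- the pairs of the box -/
noncomputable def PC (p : XX) (L : ℕ) (C : ℝ) : Finset (Vx × Vx) :=
  (box L ×ˢ box L).filter fun q => p ∈ PS C q

theorem card_PC (p : XX) (L : ℕ) (C : ℝ) :
    ((PC p L C).card : ℝ≥0∞) = ∑ q ∈ box L ×ˢ box L, (PS C q).indicator 1 p := by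
  classical
  unfold PC
  rw [Finset.card_filter]
  push_cast
  refine Finset.sum_congr rfl fun q _ => ?_
  by_cases hq : p ∈ PS C q
  · rw [if_pos hq, Set.indicator_of_mem hq]; rfl
  · rw [if_neg hq, Set.indicator_of_notMem hq]

/-- many pairs give a large set with small energy differences -/
theorem exists_star {p : XX} (hdeg : Deg2 (wl p))
    (hac : ∀ C : Finset Ed, IsCyc C → (∀ e ∈ C, wl p e = true) → C = ∅) {L : ℕ} {C c : ℝ}
    (h : c * ((box L).card : ℝ) ^ 2 ≤ (PC p L C).card) :
    ∃ G : Finset Vx, G ⊆ box L ∧ (∀ v ∈ G, OnW (wl p) v) ∧ c * (box L).card ≤ G.card ∧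
      Close p (2 * C) G := by
  classical
  have hB : 0 < ((box L).card : ℝ) := by rw [card_box']; positivity
  obtain ⟨x, hx, hxc⟩ : ∃ x ∈ box L,
      c * ((box L).card : ℝ) ≤ (((box L).filter fun x' => p ∈ PS C (x, x')).card : ℝ) := by
    by_contra hcon
    push Not at hcon
    have h1 : ((PC p L C).card : ℝ) =
        ∑ x ∈ box L, (((box L).filter fun x' => p ∈ PS C (x, x')).card : ℝ) := by
      unfold PC
      rw [Finset.card_filter, Finset.sum_product]
      push_cast
      refine Finset.sum_congr rfl fun x _ => ?_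
      rw [Finset.card_filter]
      push_cast
      rfl
    have hne : (box L).Nonempty := Finset.card_pos.1 (by exact_mod_cast hB)
    have h2 := Finset.sum_lt_sum_of_nonempty hne hcon
    rw [← h1, Finset.sum_const, nsmul_eq_mul] at h2
    nlinarith
  refine ⟨(box L).filter fun x' => p ∈ PS C (x, x'), Finset.filter_subset _ _, ?_, hxc, ?_⟩
  · intro v hv
    exact (Finset.mem_filter.1 hv).2.2.1
  · intro v hv v' hv' X hX hXp
    obtain ⟨-, -, Y, hY, hYp, hYe⟩ := (Finset.mem_filter.1 hv).2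
    obtain ⟨-, -, Y', hY', hYp', hYe'⟩ := (Finset.mem_filter.1 hv').2
    have h1 : Cn (wl p) x v := ⟨Y, hY, hYp⟩
    have h2 : Cn (wl p) x v' := ⟨Y', hY', hYp'⟩
    have h3 := Dd_tri hdeg hac h1 h2
    rw [Dd_eq hac hX hXp, Dd_eq hac hY hYp, Dd_eq hac hY' hYp'] at h3
    linarith

/-- **Block lemma for pairs.** -/
theorem pair_small {Q : Measure XX} (hQ : WQ Q) (C : ℝ) {η : ℝ} (hη : 0 < η) :
    ∃ L₀ : ℕ, ∀ L ≥ L₀, ∑ q ∈ box L ×ˢ box L, Q (PS C q) ≤
      ENNReal.ofReal (η * ((box L).card : ℝ) ^ 2) := by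
  classical
  set u : ℝ := (Q Set.univ).toReal with hu
  have hu0 : 0 ≤ u := ENNReal.toReal_nonneg
  set c : ℝ := η / (2 * (u + 1)) with hc
  have hc0 : 0 < c := by rw [hc]; positivity
  obtain ⟨L₀, hL₀⟩ := close_small hQ (2 * C) c hc0 (η := ENNReal.ofReal (η / 2))
    (ENNReal.ofReal_pos.2 (by positivity))
  refine ⟨L₀, fun L hL => ?_⟩
  have hsmall := hL₀ L hL
  set B : ℝ := ((box L).card : ℝ) with hB
  let f : XX → ℝ≥0∞ := fun p => ∑ q ∈ box L ×ˢ box L, (PS C q).indicator 1 p
  have hfm : Measurable f := Finset.measurable_fun_sum _ fun q _ =>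
    measurable_one.indicator (measurableSet_PS C q)
  have hfint : ∫⁻ p, f p ∂Q = ∑ q ∈ box L ×ˢ box L, Q (PS C q) := by
    simp only [f]
    rw [lintegral_finsetSum _ fun q _ => measurable_one.indicator (measurableSet_PS C q)]
    exact Finset.sum_congr rfl fun q _ => lintegral_indicator_one (measurableSet_PS C q)
  let E : Set XX := {p | ENNReal.ofReal (c * B ^ 2) ≤ f p}
  have hEm : MeasurableSet E := measurableSet_le measurable_const hfm
  have hfcard : ∀ p, f p = ((PC p L C).card : ℝ≥0∞) := fun p => (card_PC p L C).symm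
  have hfB : ∀ p, f p ≤ ENNReal.ofReal (B ^ 2) := by
    intro p
    rw [hfcard, ← ENNReal.ofReal_natCast]
    apply ENNReal.ofReal_le_ofReal
    have h1 : (PC p L C).card ≤ (box L).card * (box L).card := by
      unfold PC
      refine (Finset.card_filter_le _ _).trans ?_
      rw [Finset.card_product]
    rw [hB, sq]
    exact_mod_cast h1
  have hfle : ∀ p, f p ≤ ENNReal.ofReal (B ^ 2) * E.indicator 1 p + ENNReal.ofReal (c * B ^ 2) := by
    intro p
    by_cases hp : p ∈ E
    · rw [Set.indicator_of_mem hp, Pi.one_apply, mul_one]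
      exact (hfB p).trans (le_add_of_nonneg_right bot_le)
    · rw [Set.indicator_of_notMem hp, mul_zero, zero_add]
      exact (not_le.1 hp).le
  have hE : Q E ≤ ENNReal.ofReal (η / 2) := by
    refine le_trans ?_ hsmall
    apply measure_mono_ae
    filter_upwards [hQ.deg, hQ.ac] with p hdeg hac hpE
    refine exists_star hdeg hac ?_
    have h2 : ENNReal.ofReal (c * B ^ 2) ≤ f p := hpE
    rw [hfcard, ← ENNReal.ofReal_natCast] at h2
    exact (ENNReal.ofReal_le_ofReal_iff (Nat.cast_nonneg _)).1 h2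
  have hUr : Q Set.univ = ENNReal.ofReal u := (ENNReal.ofReal_toReal hQ.fin.ne).symm
  calc ∑ q ∈ box L ×ˢ box L, Q (PS C q) = ∫⁻ p, f p ∂Q := hfint.symm
    _ ≤ ∫⁻ p, (ENNReal.ofReal (B ^ 2) * E.indicator 1 p + ENNReal.ofReal (c * B ^ 2)) ∂Q :=
      lintegral_mono hfle
    _ = ENNReal.ofReal (B ^ 2) * Q E + ENNReal.ofReal (c * B ^ 2) * Q Set.univ := by
      rw [lintegral_add_right _ measurable_const, lintegral_const,
        lintegral_const_mul _ (measurable_one.indicator hEm), lintegral_indicator_one hEm]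
    _ ≤ ENNReal.ofReal (B ^ 2) * ENNReal.ofReal (η / 2) +
        ENNReal.ofReal (c * B ^ 2) * ENNReal.ofReal u := by
      rw [hUr]; gcongr
    _ = ENNReal.ofReal (B ^ 2 * (η / 2) + c * B ^ 2 * u) := by
      have hB2 : 0 ≤ B ^ 2 := sq_nonneg B
      have hcB : 0 ≤ c * B ^ 2 := mul_nonneg hc0.le hB2
      rw [← ENNReal.ofReal_mul hB2, ← ENNReal.ofReal_mul hcB,
        ← ENNReal.ofReal_add (mul_nonneg hB2 (half_pos hη).le) (mul_nonneg hcB hu0)]
    _ ≤ ENNReal.ofReal (η * B ^ 2) := by
      apply ENNReal.ofReal_le_ofReal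
      have h1 : c * u ≤ η / 2 := by
        rw [hc, div_mul_eq_mul_div, div_le_iff₀ (by positivity)]
        nlinarith
      nlinarith [sq_nonneg B]

end Pool.Agent.Helper63.MS
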