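import Mathlib

/-! Peeling a family of rungs (used for the difference of two replicas is a single wall).
`E` = rungs, `I` = components of the wall, a flag `(g, b) : E × Bool` is an end of the rung `g`,
`vx` its component, `D` the distance (energy difference) of two ends at the same component. -/

namespace Pool.Agent.Helper63.MS

open Finset

variable {E I : Type*}

/-- the other end of the same rung -/
def op (f : E × Bool) : E × Bool := (f.1, !f.2)

@[simp] lemma op_fst (f : E × Bool) : (op f).1 = f.1 := rfl
@[simp] lemma op_op (f : E × Bool) : op (op f) = f := by simp [op]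

/-- condition (*): in every closed chain of `n ≥ 2` rungs of `F` (departure ends `d 0, ..., d (n-1)`)
through pairwise different components the sum of the lengths of the passages is at most `n * K` -/
def CycleBound (F : Finset E) (vx : E × Bool → I) (D : E × Bool → E × Bool → ℝ) (K : ℝ) : Prop :=
  ∀ (n : ℕ) (d : ℕ → E × Bool), 2 ≤ n → (∀ k < n, (d k).1 ∈ F) →
    (∀ k < n, vx (op (d k)) = vx (d ((k + 1) % n))) →
    (∀ j < n, ∀ k < n, vx (d j) = vx (d k) → j = k) →
    ∑ k ∈ range n, D (op (d k)) (d ((k + 1) % n)) ≤ n * K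

lemma CycleBound.mono {F F' : Finset E} {vx : E × Bool → I} {D : E × Bool → E × Bool → ℝ} {K : ℝ}
    (h : CycleBound F vx D K) (hF : F' ⊆ F) : CycleBound F' vx D K :=
  fun n d hn hd h1 h2 => h n d hn (fun k hk => hF (hd k hk)) h1 h2

/-- If (*) holds there is an end all of whose companions (ends at the same component) have
almost the same height. -/
theorem exists_close {F : Finset E} {vx : E × Bool → I} {D : E × Bool → E × Bool → ℝ} {K : ℝ}
    (hK : 0 ≤ K) (hD : ∀ a b, 0 ≤ D a b) (hne : ∀ g ∈ F, vx (g, true) ≠ vx (g, false))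
    (hcyc : CycleBound F vx D K) (hF : F.Nonempty) :
    ∃ a : E × Bool, a.1 ∈ F ∧ ∀ b : E × Bool, b.1 ∈ F → vx b = vx a → D a b ≤ 2 * K := by
  classical
  by_contra hcon
  push Not at hcon
  -- the next departure end
  have hnext : ∀ d : E × Bool, ∃ b : E × Bool, d.1 ∈ F →
      (b.1 ∈ F ∧ vx b = vx (op d) ∧ 2 * K < D (op d) b) := by
    intro d
    by_cases hd : d.1 ∈ F
    · obtain ⟨b, hb1, hb2, hb3⟩ := hcon (op d) (by simpa using hd)
      exact ⟨b, fun _ => ⟨hb1, hb2, hb3⟩⟩
    · exact ⟨d, fun h => absurd h hd⟩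
  choose nx hnx using hnext
  obtain ⟨g0, hg0⟩ := hF
  let d : ℕ → E × Bool := fun k => nx^[k] (g0, true)
  have hd_succ : ∀ k, d (k + 1) = nx (d k) := fun k => by
    simp only [d, Function.iterate_succ_apply']
  have hdF : ∀ k, (d k).1 ∈ F := by
    intro k
    induction k with
    | zero => exact hg0
    | succ k ih => rw [hd_succ]; exact (hnx _ ih).1
  have hvx : ∀ k, vx (d (k + 1)) = vx (op (d k)) := fun k => by
    rw [hd_succ]; exact (hnx _ (hdF k)).2.1
  have hht : ∀ k, 2 * K < D (op (d k)) (d (k + 1)) := fun k => by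
    rw [hd_succ]; exact (hnx _ (hdF k)).2.2
  -- a first revisit
  have hrev : ∃ n, ∃ j < n, vx (d j) = vx (d n) := by
    let V : Finset I := (F ×ˢ (Finset.univ : Finset Bool)).image vx
    have hV : ∀ k, vx (d k) ∈ V := fun k =>
      Finset.mem_image_of_mem _ (Finset.mem_product.2 ⟨hdF k, Finset.mem_univ _⟩)
    obtain ⟨i, j, hij, heq⟩ := Finite.exists_ne_map_eq_of_infinite
      (fun k : ℕ => (⟨vx (d k), hV k⟩ : V))
    have heq' : vx (d i) = vx (d j) := by simpa using heq
    rcases lt_or_gt_of_ne hij with h | h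
    · exact ⟨j, i, h, heq'⟩
    · exact ⟨i, j, h, heq'.symm⟩
  let n := Nat.find hrev
  obtain ⟨j, hjn, hj⟩ := Nat.find_spec hrev
  have hmin : ∀ m < n, ∀ k < m, vx (d k) ≠ vx (d m) := by
    intro m hm k hk h
    exact Nat.find_min hrev hm ⟨k, hk, h⟩
  have hinj : ∀ a < n, ∀ b < n, vx (d a) = vx (d b) → a = b := by
    intro a ha b hb h
    rcases lt_trichotomy a b with h1 | h1 | h1
    · exact absurd h (hmin b hb a h1)
    · exact h1
    · exact absurd h.symm (hmin a ha b h1)
  have hjn' : j < n := hjn
  have hj' : vx (d j) = vx (d n) := hj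
  obtain ⟨m, hm⟩ : ∃ m, n = j + m := ⟨n - j, by omega⟩
  have hm2 : 2 ≤ m := by
    by_contra hlt
    have hm1 : m = 1 := by omega
    have h1 : vx (d j) = vx (op (d j)) := by rw [hj', hm, hm1, hvx]
    have h2 := hne _ (hdF j)
    rcases hb : (d j) with ⟨g, b⟩
    rw [hb] at h1 h2
    cases b
    · exact h2 (by simpa [op] using h1.symm)
    · exact h2 (by simpa [op] using h1)
  have hmod : ∀ k, k + 1 < m → (k + 1) % m = k + 1 := fun k hk => Nat.mod_eq_of_lt hk
  have hcyc' := hcyc m (fun k => d (j + k)) hm2 (fun k _ => hdF _) (by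
      intro k hk
      rcases Nat.lt_or_ge (k + 1) m with h | h
      · simp only [hmod k h]
        exact (hvx (j + k)).symm
      · have hk1 : k + 1 = m := by omega
        simp only [hk1, Nat.mod_self, Nat.add_zero]
        rw [← hvx, hj', hm]
        congr 2
        omega) (by
      intro a ha b hb h
      have := hinj (j + a) (by omega) (j + b) (by omega) h
      omega)
  -- lower bound of the sum
  have hlow : ((m : ℝ) - 1) * (2 * K) < ∑ k ∈ range m, D (op (d (j + k))) (d (j + (k + 1) % m)) := by
    obtain ⟨m', rfl⟩ : ∃ m', m = m' + 1 := ⟨m - 1, by omega⟩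
    rw [Finset.sum_range_succ]
    have hm'1 : 1 ≤ m' := by omega
    have h1 : ∑ _k ∈ range m', (2 * K) <
        ∑ k ∈ range m', D (op (d (j + k))) (d (j + (k + 1) % (m' + 1))) := by
      apply Finset.sum_lt_sum_of_nonempty
      · exact Finset.nonempty_range_iff.2 (by omega)
      · intro k hk
        have hk' := Finset.mem_range.1 hk
        rw [hmod k (by omega)]
        exact hht (j + k)
    rw [Finset.sum_const, Finset.card_range, nsmul_eq_mul] at h1
    have h2 := hD (op (d (j + m'))) (d (j + (m' + 1) % (m' + 1)))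
    push_cast
    linarith
  have h3 : (2 : ℝ) ≤ m := by exact_mod_cast hm2
  have h4 : (m : ℝ) * K ≤ ((m : ℝ) - 1) * (2 * K) := by nlinarith
  linarith

/-- **Peeling.** If (*) holds, every rung can be given to one of its two components in such a way
that all ends owned by one component have diameter at most `4 K`. -/
theorem peel [DecidableEq E] (F : Finset E) {vx : E × Bool → I} {D : E × Bool → E × Bool → ℝ} {K : ℝ}
    (hK : 0 ≤ K) (hD : ∀ a b, 0 ≤ D a b)
    (htri : ∀ a b c, vx b = vx a → vx c = vx a → D b c ≤ D a b + D a c) (hne : ∀ g ∈ F, vx (g, true) ≠ vx (g, false))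
    (hcyc : CycleBound F vx D K) :
    ∃ o : E → Bool, ∀ g ∈ F, ∀ g' ∈ F, vx (g, o g) = vx (g', o g') →
      D (g, o g) (g', o g') ≤ 4 * K := by
  classical
  induction hn : F.card using Nat.strong_induction_on generalizing F with
  | _ n ih =>
    rcases F.eq_empty_or_nonempty with rfl | hF
    · exact ⟨fun _ => true, by simp⟩
    obtain ⟨a, haF, ha⟩ := exists_close hK hD hne hcyc hF
    set F' : Finset E := F.filter (fun g => vx (g, true) ≠ vx a ∧ vx (g, false) ≠ vx a) with hF'
    have hsub : F' ⊆ F := Finset.filter_subset _ _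
    have haF' : a.1 ∉ F' := by
      intro h
      have h' := (Finset.mem_filter.1 h).2
      rcases a with ⟨g, b⟩
      cases b
      · exact h'.2 rfl
      · exact h'.1 rfl
    have hcard : F'.card < n := by
      rw [← hn]
      exact Finset.card_lt_card ⟨hsub, fun h => haF' (h haF)⟩
    obtain ⟨o', ho'⟩ := ih F'.card hcard F' (fun g hg => hne g (hsub hg)) (hcyc.mono hsub) rfl
    let o : E → Bool := fun g => if g ∈ F' then o' g else decide (vx (g, true) = vx a)
    have hin : ∀ g ∈ F', o g = o' g ∧ vx (g, o g) ≠ vx a := by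
      intro g hg
      have h1 : o g = o' g := by simp only [o, if_pos hg]
      refine ⟨h1, ?_⟩
      have h2 := (Finset.mem_filter.1 hg).2
      cases h : o g
      · exact h2.2
      · exact h2.1
    have hout : ∀ g ∈ F, g ∉ F' → vx (g, o g) = vx a := by
      intro g hg hg'
      have h1 : o g = decide (vx (g, true) = vx a) := by simp only [o, if_neg hg']
      by_cases h2 : vx (g, true) = vx a
      · rw [h1]; simpa [h2] using h2
      · have h3 : vx (g, false) = vx a := by
          by_contra h3
          exact hg' (Finset.mem_filter.2 ⟨hg, h2, h3⟩)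
        rw [h1]; simpa [h2] using h3
    refine ⟨o, fun g hg g' hg' heq => ?_⟩
    by_cases h1 : g ∈ F' <;> by_cases h2 : g' ∈ F'
    · have e1 := (hin g h1).1
      have e2 := (hin g' h2).1
      rw [e1, e2] at heq ⊢
      exact ho' g h1 g' h2 heq
    · exact absurd (heq.trans (hout g' hg' h2)) (hin g h1).2
    · exact absurd (heq.symm.trans (hout g hg h1)) (hin g' h2).2
    · have e1 := ha (g, o g) hg (hout g hg h1)
      have e2 := ha (g', o g') hg' (hout g' hg' h2)
      have := htri a (g, o g) (g', o g') (hout g hg h1) (hout g' hg' h2)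
      linarith

end Pool.Agent.Helper63.MS
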