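import Pool.Agent.Helper63.MS.Peel
import Pool.Agent.Helper63.MS.Block
import Pool.Agent.Helper63.MS.Chain
import Pool.Agent.Helper60.TJ.C0

set_option autoImplicit false

/-! The wall between two replicas is a single path. -/

namespace Pool.Agent.Helper63.MS

open MeasureTheory Filter Topology Pool.Agent.Helper60.TJ
open Pool.Agent.Helper61.MM (HG Cl One)
open scoped symmDiff ENNReal

/-- a rung of shape `R` from `0` to `z`, of weight at most `K` -/
def A0 (z : Vx) (R : Finset Ed) (K : ℝ) : Set XX :=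
  {p | OnW (wl p) 0 ∧ OnW (wl p) z ∧ ¬ Cn (wl p) 0 z ∧ (∀ e ∈ R, wl p e = false) ∧
    tw (wt p.1) R ≤ K}

theorem eq_of_par {W : Ed → Bool} (hac : ∀ C : Finset Ed, IsCyc C → (∀ e ∈ C, W e = true) → C = ∅)
    {X Y : Finset Ed} (hX : ∀ e ∈ X, W e = true) (hY : ∀ e ∈ Y, W e = true)
    (h : par (ind X) = par (ind Y)) : X = Y := by
  have h1 := hac (X ∆ Y) (isCyc_symmDiff_of_eq h) (fun e he => by
    rw [Finset.mem_symmDiff] at he
    rcases he with he | he
    · exact hX e he.1
    · exact hY e he.1)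
  exact symmDiff_eq_bot.1 h1

theorem onW_sh (u v : Vx) (W : Ed → Bool) : OnW (sh u W) v ↔ OnW W (v + u) := by
  unfold OnW; simp only [sh_edg]

theorem vx_dl_sub (x a b v : Vx) : vx (dl a) (dl b) (v + -x) = vx (dl (a + x)) (dl (b + x)) v := by
  have h1 : ∀ c : Vx, (v + -x = c) ↔ (v = c + x) := fun c => by
    rw [← sub_eq_add_neg]; exact sub_eq_iff_eq_add
  simp only [vx, dl, h1]

theorem cn_sh (u v v' : Vx) (W : Ed → Bool) : Cn (sh u W) v v' ↔ Cn W (v + u) (v' + u) := by
  constructor
  · rintro ⟨X, hX, hp⟩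
    refine ⟨shF (-u) X, fun e he => ?_, ?_⟩
    · rw [mem_shF] at he
      have := hX _ he
      simpa [sh] using this
    · funext z
      rw [ind_shF, par_sh, hp]
      exact vx_dl_sub _ _ _ _
  · rintro ⟨X, hX, hp⟩
    refine ⟨shF u X, fun e he => ?_, ?_⟩
    · rw [mem_shF] at he
      exact hX _ he
    · rw [ind_shF]
      funext z
      rw [par_sh, hp]
      simp [vx, dl]

section det

variable {p : XX} (hdeg : Deg2 (wl p))
    (hac : ∀ C : Finset Ed, IsCyc C → (∀ e ∈ C, wl p e = true) → C = ∅)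
    (hrec : ∀ A : Ed → Bool, Sat (wl p) A → bx p.2.1 A ∈ GS (wt p.1) (par p.2.1))

/-- the two ends of the rungs -/
def pt (z : Vx) (f : Vx × Bool) : Vx := if f.2 then f.1 else f.1 + z

/-- components -/
def cpt (p : XX) (z : Vx) (f : Vx × Bool) : Set Vx := {u | Cn (wl p) (pt z f) u}

theorem cpt_eq {z : Vx} {f f' : Vx × Bool} : cpt p z f = cpt p z f' ↔ Cn (wl p) (pt z f) (pt z f') := by
  constructor
  · intro h
    have : pt z f' ∈ cpt p z f' := Cn.refl _ _
    rw [← h] at this
    exact this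
  · intro h
    ext u
    exact ⟨fun h1 => h.symm.trans h1, fun h1 => h.trans h1⟩

open Classical in
/-- energy difference of two connected points -/
noncomputable def Dd (p : XX) (v v' : Vx) : ℝ :=
  if h : Cn (wl p) v v' then |en (wt p.1) p.2.1 h.choose| else 0

theorem Dd_nonneg (v v' : Vx) : 0 ≤ Dd p v v' := by
  unfold Dd
  split_ifs
  · exact abs_nonneg _
  · exact le_rfl

include hac in
theorem Dd_eq {v v' : Vx} {X : Finset Ed} (hX : ∀ e ∈ X, wl p e = true)
    (hXp : par (ind X) = vx (dl v) (dl v')) : Dd p v v' = |en (wt p.1) p.2.1 X| := by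
  have h : Cn (wl p) v v' := ⟨X, hX, hXp⟩
  have h1 := h.choose_spec
  unfold Dd
  rw [dif_pos h, eq_of_par hac hX h1.1 (by rw [hXp, h1.2])]

include hdeg hac in
theorem Dd_tri {a b c : Vx} (hb : Cn (wl p) a b) (hc : Cn (wl p) a c) :
    Dd p b c ≤ Dd p a b + Dd p a c := by
  obtain ⟨X, hX, hXp⟩ := hb
  obtain ⟨Y, hY, hYp⟩ := hc
  have hXp' : par (ind X) = vx (dl b) (dl a) := by rw [hXp, vx_comm]
  have h1 := abs_en_triangle hdeg hac hX hXp' hY hYp
  have h2 : ∀ e ∈ X ∆ Y, wl p e = true := by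
    intro e he
    rw [Finset.mem_symmDiff] at he
    rcases he with he | he
    · exact hX e he.1
    · exact hY e he.1
  have h3 : par (ind (X ∆ Y)) = vx (dl b) (dl c) := by
    rw [par_ind_symmDiff, hXp', hYp]; exact vx_trans _ _ _
  rw [Dd_eq hac h2 h3, Dd_eq hac hX hXp, Dd_eq hac hY hYp]
  exact h1

include hac hrec in
theorem cycleBound {z : Vx} {R : Finset Ed} {K : ℝ} (hRp : par (ind R) = vx (dl 0) (dl z))
    {F : Finset Vx} (hF : ∀ x ∈ F, shX x p ∈ A0 z R K) :
    CycleBound F (cpt p z) (fun f f' => Dd p (pt z f) (pt z f')) K := by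
  classical
  intro n d hn hdF hconn hdist
  have hcn : ∀ k < n, Cn (wl p) (pt z (op (d k))) (pt z (d ((k + 1) % n))) := fun k hk =>
    cpt_eq.1 (hconn k hk)
  let X : ℕ → Finset Ed := fun k =>
    if h : Cn (wl p) (pt z (op (d k))) (pt z (d ((k + 1) % n))) then h.choose else ∅
  have hX : ∀ k < n, (∀ e ∈ X k, wl p e = true) ∧
      par (ind (X k)) = vx (dl (pt z (op (d k)))) (dl (pt z (d ((k + 1) % n)))) := by
    intro k hk
    have e : X k = (hcn k hk).choose := dif_pos (hcn k hk)
    rw [e]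
    exact (hcn k hk).choose_spec
  have hoff : ∀ k < n, ∀ e ∈ shF (-(d k).1) R, wl p e = false := by
    intro k hk e he
    rw [mem_shF] at he
    have h1 := (hF _ (hdF k hk)).2.2.2.1 _ he
    rw [wl_shX] at h1
    simpa [sh] using h1
  have hoffp : ∀ k < n, par (ind (shF (-(d k).1) R)) =
      vx (dl (pt z (d k))) (dl (pt z (op (d k)))) := by
    intro k hk
    have h1 : par (ind (shF (-(d k).1) R)) = vx (dl (d k).1) (dl ((d k).1 + z)) := by
      funext v
      rw [ind_shF, par_sh, hRp, vx_dl_sub, zero_add, add_comm z]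
    rw [h1]
    rcases h : d k with ⟨x, b⟩
    cases b
    · simp only [pt, op]
      rw [vx_comm]; rfl
    · rfl
  have htw : ∀ k < n, tw (wt p.1) (shF (-(d k).1) R) ≤ K := by
    intro k hk
    have h1 := (hF _ (hdF k hk)).2.2.2.2
    refine le_trans (le_of_eq ?_) h1
    unfold tw shF
    rw [Finset.sum_map]
    refine Finset.sum_congr rfl fun e _ => ?_
    simp [shE, wt, shX, sh]
  have h1 := chain (p := p) hac hrec (n := n) (by omega) (a := fun k => pt z (d k))
    (b := fun k => pt z (op (d k))) (R := fun k => shF (-(d k).1) R) (X := X)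
    hoff hoffp (fun k hk => (hX k hk).1) (fun k hk => (hX k hk).2)
    (fun j hj k hk h => hdist j hj k hk (cpt_eq.2 h))
  calc ∑ k ∈ Finset.range n, Dd p (pt z (op (d k))) (pt z (d ((k + 1) % n)))
      = ∑ k ∈ Finset.range n, |en (wt p.1) p.2.1 (X k)| := by
        refine Finset.sum_congr rfl fun k hk => ?_
        have hk' := Finset.mem_range.1 hk
        exact Dd_eq hac (hX k hk').1 (hX k hk').2
    _ ≤ ∑ k ∈ Finset.range n, tw (wt p.1) (shF (-(d k).1) R) := h1
    _ ≤ ∑ _k ∈ Finset.range n, K := Finset.sum_le_sum fun k hk => htw k (Finset.mem_range.1 hk)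
    _ = n * K := by rw [Finset.sum_const, Finset.card_range, nsmul_eq_mul]

include hdeg hac hrec in
/-- many rungs give a large set of wall points with small energy differences -/
theorem exists_good {z : Vx} {R : Finset Ed} {K : ℝ} (hK : 0 ≤ K)
    (hRp : par (ind R) = vx (dl 0) (dl z)) {F : Finset Vx} (hF : ∀ x ∈ F, shX x p ∈ A0 z R K) :
    ∃ G : Finset Vx, (∀ v ∈ G, OnW (wl p) v) ∧ (∀ v ∈ G, v ∈ F ∨ v - z ∈ F) ∧
      F.card ≤ 2 * G.card ∧ Close p (4 * K) G := by
  classical
  have hon : ∀ x ∈ F, OnW (wl p) x ∧ OnW (wl p) (x + z) ∧ ¬ Cn (wl p) x (x + z) := by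
    intro x hx
    obtain ⟨h1, h2, h3, -, -⟩ := hF x hx
    rw [wl_shX] at h1 h2 h3
    rw [onW_sh] at h1 h2
    rw [cn_sh] at h3
    rw [zero_add] at h1 h3
    rw [add_comm] at h2
    rw [add_comm z] at h3
    exact ⟨h1, h2, h3⟩
  obtain ⟨o, ho⟩ := peel F (vx := cpt p z) (D := fun f f' => Dd p (pt z f) (pt z f')) hK
    (fun a b => Dd_nonneg _ _)
    (fun a b c hb hc => Dd_tri hdeg hac (cpt_eq.1 hb.symm) (cpt_eq.1 hc.symm))
    (fun x hx h => (hon x hx).2.2 (cpt_eq.1 h))
    (cycleBound hac hrec hRp hF)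
  refine ⟨F.image fun x => pt z (x, o x), ?_, ?_, ?_, ?_⟩
  · intro v hv
    obtain ⟨x, hx, rfl⟩ := Finset.mem_image.1 hv
    cases h : o x
    · exact (hon x hx).2.1
    · exact (hon x hx).1
  · intro v hv
    obtain ⟨x, hx, rfl⟩ := Finset.mem_image.1 hv
    cases h : o x
    · right
      simp only [pt]
      simpa using hx
    · left
      simpa [pt] using hx
  · have h1 : F.card ≤ ((F.image fun x => pt z (x, o x)) ×ˢ (Finset.univ : Finset Bool)).card := by
      refine Finset.card_le_card_of_injOn (fun x => (pt z (x, o x), o x)) ?_ ?_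
      · intro x hx
        rw [Finset.mem_coe] at hx
        rw [Finset.mem_coe, Finset.mem_product]
        exact ⟨Finset.mem_image_of_mem _ hx, Finset.mem_univ _⟩
      · intro x _ x' _ h
        rw [Prod.mk.injEq] at h
        obtain ⟨h1, h2⟩ := h
        rw [h2] at h1
        cases h3 : o x' <;> rw [h3] at h1
        · simp only [pt] at h1
          simpa using h1
        · simpa [pt] using h1
    rw [Finset.card_product] at h1
    simpa [mul_comm] using h1
  · intro v hv v' hv' X hX hXp
    obtain ⟨x, hx, rfl⟩ := Finset.mem_image.1 hv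
    obtain ⟨x', hx', rfl⟩ := Finset.mem_image.1 hv'
    have h1 := ho x hx x' hx' (cpt_eq.2 ⟨X, hX, hXp⟩)
    rw [← Dd_eq hac hX hXp]
    exact h1

end det

theorem measurableSet_A0 (z : Vx) (R : Finset Ed) (K : ℝ) : MeasurableSet (A0 z R K) := by
  refine (measurable_wl (measurableSet_OnW 0)).inter ((measurable_wl (measurableSet_OnW z)).inter
    ((measurable_wl (measurableSet_Cn 0 z)).compl.inter (MeasurableSet.inter ?_ ?_)))
  · have h2 : {p : XX | ∀ e ∈ R, wl p e = false} = ⋂ e ∈ R, {p | wl p e = false} := by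
      ext p; simp
    have h3 : MeasurableSet (⋂ e ∈ R, {p : XX | wl p e = false}) :=
      Finset.measurableSet_biInter R fun e _ => measurable_wl (measurableSet_coord e false)
    rw [← h2] at h3
    exact h3
  · have h5 : Measurable fun p : XX => tw (wt p.1) R := by
      unfold tw wt
      exact Finset.measurable_fun_sum _ fun e _ =>
        ((measurable_pi_apply e).comp measurable_fst).abs
    exact measurableSet_le h5 measurable_const

/-- **Single wall.** -/
theorem single_wall {Q : Measure XX} (hQ : WQ Q)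
    (hrec : ∀ᵐ p ∂Q, ∀ A : Ed → Bool, Sat (wl p) A → bx p.2.1 A ∈ GS (wt p.1) (par p.2.1)) :
    ∀ᵐ p ∂Q, ∀ v v' : Vx, OnW (wl p) v → OnW (wl p) v' → Cn (wl p) v v' := by
  classical
  by_contra hcon
  -- a rung of positive probability
  obtain ⟨z, R, K, hRp, hpos⟩ : ∃ (z : Vx) (R : Finset Ed) (K : ℕ),
      par (ind R) = vx (dl 0) (dl z) ∧ Q (A0 z R K) ≠ 0 := by
    by_contra hno
    push Not at hno
    apply hcon
    have h1 : ∀ᵐ p ∂Q, ∀ (y z : Vx) (R : Finset Ed) (K : ℕ), par (ind R) = vx (dl 0) (dl z) →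
        p ∉ shX y ⁻¹' A0 z R K := by
      rw [ae_all_iff]; intro y
      rw [ae_all_iff]; intro z
      rw [ae_all_iff]; intro R
      rw [ae_all_iff]; intro K
      by_cases hRp : par (ind R) = vx (dl 0) (dl z)
      · have h2 : Q (shX y ⁻¹' A0 z R K) = 0 := by
          rw [(hQ.inv y).measure_preimage (measurableSet_A0 z R K).nullMeasurableSet]
          exact hno z R K hRp
        have h3 : ∀ᵐ p ∂Q, p ∉ shX y ⁻¹' A0 z R K := measure_eq_zero_iff_ae_notMem.1 h2
        filter_upwards [h3] with p hp _ using hp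
      · exact Eventually.of_forall fun p h => absurd h hRp
    filter_upwards [h1] with p hp v v' hv hv'
    by_contra hne
    obtain ⟨y, z, X, hy, hz, hyz, hX, hXp⟩ := exists_rung hv hv' hne
    obtain ⟨K, hK⟩ := exists_nat_ge (tw (wt (sh y p.1)) (shF y X))
    refine hp y (z - y) (shF y X) K ?_ ?_
    · rw [ind_shF]
      funext u
      rw [par_sh, hXp]
      simp only [vx, dl]
      congr 1
      · rw [decide_eq_decide]
        exact add_eq_right
      · rw [decide_eq_decide]
        exact eq_sub_iff_add_eq.symm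
    · refine ⟨?_, ?_, ?_, ?_, hK⟩
      · rw [wl_shX, onW_sh, zero_add]; exact hy
      · rw [wl_shX, onW_sh, sub_add_cancel]; exact hz
      · rw [wl_shX, cn_sh, sub_add_cancel, zero_add]; exact hyz
      · intro e he
        rw [mem_shF] at he
        exact hX _ he
  set α := Q (A0 z R K) with hα
  have hα0 : 0 < α := pos_iff_ne_zero.2 hpos
  have hαfin : α ≠ ⊤ := (lt_of_le_of_lt (measure_mono (Set.subset_univ _)) hQ.fin).ne
  have hU0 : Q Set.univ ≠ 0 := fun h => hpos (measure_mono_null (Set.subset_univ _) h)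
  have hUfin : Q Set.univ ≠ ⊤ := hQ.fin.ne
  set c : ℝ := (α / (2 * Q Set.univ)).toReal with hc
  have h2U : 2 * Q Set.univ ≠ ⊤ := ENNReal.mul_ne_top ENNReal.ofNat_ne_top hUfin
  have h2U0 : 2 * Q Set.univ ≠ 0 := mul_ne_zero two_ne_zero hU0
  have hdivfin : α / (2 * Q Set.univ) ≠ ⊤ := ENNReal.div_ne_top hαfin h2U0
  have hc0 : 0 < c := ENNReal.toReal_pos (ENNReal.div_pos hα0.ne' h2U).ne' hdivfin
  obtain ⟨l, hl⟩ : ∃ l : ℕ, z ∈ box l := by
    refine ⟨z.1.natAbs + z.2.natAbs, ?_⟩
    unfold box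
    simp only [Finset.mem_product, Finset.mem_Icc]
    push_cast
    have h1 := neg_abs_le z.1
    have h2 := neg_abs_le z.2
    have h3 := le_abs_self z.1
    have h4 := le_abs_self z.2
    have h5 := abs_nonneg z.1
    have h6 := abs_nonneg z.2
    omega
  obtain ⟨L₀, hL₀⟩ := close_small hQ (4 * (K : ℝ)) (c / 8) (by positivity) (η := α / 4)
    (ENNReal.div_pos hα0.ne' (by simp))
  set L := L₀ + l with hL
  have hsmall := hL₀ (L + l) (by omega)
  let Fp : XX → Finset Vx := fun p => (box L).filter fun x => shX x p ∈ A0 z R K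
  let f : XX → ℝ≥0∞ := fun p => ∑ x ∈ box L, (shX x ⁻¹' A0 z R K).indicator 1 p
  have hfF : ∀ p, f p = ((Fp p).card : ℝ≥0∞) := by
    intro p
    simp only [f, Fp, Finset.card_filter]
    push_cast
    refine Finset.sum_congr rfl fun x _ => ?_
    by_cases hx : shX x p ∈ A0 z R K
    · rw [Set.indicator_of_mem (show p ∈ shX x ⁻¹' A0 z R K from hx), if_pos hx]; rfl
    · rw [Set.indicator_of_notMem (show p ∉ shX x ⁻¹' A0 z R K from hx), if_neg hx]
  have hfm : Measurable f := Finset.measurable_fun_sum _ fun x _ =>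
    measurable_one.indicator ((measurable_shX x) (measurableSet_A0 z R K))
  have hfint : ∫⁻ p, f p ∂Q = (box L).card * α := by
    simp only [f]
    rw [lintegral_finsetSum _ fun x _ =>
      measurable_one.indicator ((measurable_shX x) (measurableSet_A0 z R K))]
    rw [Finset.sum_congr rfl (g := fun _ => α) fun x _ => ?_]
    · rw [Finset.sum_const, nsmul_eq_mul]
    · rw [lintegral_indicator_one ((measurable_shX x) (measurableSet_A0 z R K)),
        (hQ.inv x).measure_preimage (measurableSet_A0 z R K).nullMeasurableSet]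
  set B : ℝ≥0∞ := ((box L).card : ℝ≥0∞) with hB
  have hBr : B = ENNReal.ofReal ((box L).card : ℝ) := by rw [hB, ENNReal.ofReal_natCast]
  have hB0 : B ≠ 0 := by
    rw [hB, card_box']; simp
  have hBfin : B ≠ ⊤ := by rw [hB]; exact ENNReal.natCast_ne_top _
  -- the event that there are many rungs
  let E : Set XX := {p | ENNReal.ofReal (c * (box L).card) ≤ f p}
  have hEm : MeasurableSet E := measurableSet_le measurable_const hfm
  have hfle : ∀ p, f p ≤ B * E.indicator 1 p + ENNReal.ofReal (c * (box L).card) := by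
    intro p
    by_cases hp : p ∈ E
    · rw [Set.indicator_of_mem hp]
      refine le_trans ?_ (le_add_of_nonneg_right bot_le)
      rw [hfF, Pi.one_apply, mul_one]
      rw [hB, Nat.cast_le]
      exact Finset.card_filter_le _ _
    · rw [Set.indicator_of_notMem hp, mul_zero, zero_add]
      exact (not_le.1 hp).le
  have hEbig : α / 2 ≤ Q E := by
    have h1 : B * α ≤ B * Q E + B * (α / 2) := by
      calc B * α = ∫⁻ p, f p ∂Q := hfint.symm
        _ ≤ ∫⁻ p, (B * E.indicator 1 p + ENNReal.ofReal (c * (box L).card)) ∂Q :=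
          lintegral_mono hfle
        _ = B * Q E + ENNReal.ofReal (c * (box L).card) * Q Set.univ := by
          rw [lintegral_add_right _ measurable_const, lintegral_const,
            lintegral_const_mul _ (measurable_one.indicator hEm), lintegral_indicator_one hEm]
        _ = B * Q E + B * (α / 2) := by
          congr 1
          rw [ENNReal.ofReal_mul hc0.le, ← hBr, hc, ENNReal.ofReal_toReal hdivfin]
          rw [mul_comm (α / (2 * Q Set.univ)) B, mul_assoc]
          congr 1
          rw [div_eq_mul_inv, div_eq_mul_inv, ENNReal.mul_inv (Or.inl two_ne_zero)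
            (Or.inl ENNReal.ofNat_ne_top), mul_assoc, mul_assoc, ENNReal.inv_mul_cancel hU0 hUfin,
            mul_one]
    have h2 : α ≤ Q E + α / 2 := by
      rw [← mul_add] at h1
      exact (ENNReal.mul_le_mul_iff_right hB0 hBfin).1 h1
    have h3 : α / 2 + α / 2 ≤ Q E + α / 2 := by rwa [ENNReal.add_halves]
    exact (ENNReal.add_le_add_iff_right (ENNReal.div_ne_top hαfin two_ne_zero)).1 h3
  have hsub : Q E ≤ Q {p | ∃ G : Finset Vx, G ⊆ box (L + l) ∧ (∀ v ∈ G, OnW (wl p) v) ∧
      c / 8 * (box (L + l)).card ≤ G.card ∧ Close p (4 * (K : ℝ)) G} := by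
    apply measure_mono_ae
    filter_upwards [hQ.deg, hQ.ac, hrec] with p hdeg hac hr hpE
    have hF : ∀ x ∈ Fp p, shX x p ∈ A0 z R K := fun x hx => (Finset.mem_filter.1 hx).2
    obtain ⟨G, hG1, hG2, hG3, hG4⟩ := exists_good hdeg hac hr (Nat.cast_nonneg K) hRp hF
    refine ⟨G, ?_, hG1, ?_, hG4⟩
    · intro v hv
      rcases hG2 v hv with h | h
      · exact box_mono (by omega) (Finset.mem_filter.1 h).1
      · have h1 := add_mem_box (Finset.mem_filter.1 h).1 hl
        rwa [sub_add_cancel] at h1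
    · have h1 : c * ((box L).card : ℝ) ≤ ((Fp p).card : ℝ) := by
        have h2 : ENNReal.ofReal (c * (box L).card) ≤ f p := hpE
        rw [hfF, ← ENNReal.ofReal_natCast] at h2
        exact (ENNReal.ofReal_le_ofReal_iff (Nat.cast_nonneg _)).1 h2
      have h3 : ((Fp p).card : ℝ) ≤ 2 * (G.card : ℝ) := by exact_mod_cast hG3
      have h4 : ((box (L + l)).card : ℝ) ≤ 4 * ((box L).card : ℝ) := by
        rw [card_box', card_box']
        have h5 : 2 * (L + l) + 1 ≤ 2 * (2 * L + 1) := by omega
        have h6 : (2 * (L + l) + 1) * (2 * (L + l) + 1) ≤ 4 * ((2 * L + 1) * (2 * L + 1)) := by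
          calc _ ≤ (2 * (2 * L + 1)) * (2 * (2 * L + 1)) := Nat.mul_le_mul h5 h5
            _ = _ := by ring
        exact_mod_cast h6
      have h7 : c / 8 * ((box (L + l)).card : ℝ) ≤ c / 8 * (4 * ((box L).card : ℝ)) :=
        mul_le_mul_of_nonneg_left h4 (by positivity)
      linarith
  have hfinal : α / 2 ≤ α / 4 := hEbig.trans (hsub.trans hsmall)
  have h8 : α / 4 < α / 2 := by
    rw [ENNReal.div_lt_iff (Or.inl (by simp)) (Or.inl (by simp))]
    have h9 : α / 2 * 4 = α * 2 := by
      rw [div_eq_mul_inv, mul_assoc]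
      congr 1
      rw [show (4 : ℝ≥0∞) = 2 * 2 by norm_num, ← mul_assoc,
        ENNReal.inv_mul_cancel two_ne_zero ENNReal.ofNat_ne_top, one_mul]
    rw [h9]
    calc α = α * 1 := (mul_one α).symm
      _ < α * 2 := by
        rw [ENNReal.mul_lt_mul_iff_right hα0.ne' hαfin]
        norm_num
  exact absurd hfinal (not_le.2 h8)

end Pool.Agent.Helper63.MS
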