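import Pool.Agent.Helper60.TJ.H2
import Pool.Agent.Helper60.TJ.G1
import Pool.Agent.Helper61.MM.DefsB

set_option autoImplicit false

/-! Window lemma (deterministic): if a set `G` of wall points of the box `box L` is such that any two
points of `G` at index distance `< n` along the wall have energy difference at most `C`, then `|G|` is
controlled by the number of short walks with small energy. -/

namespace Pool.Agent.Helper63.MS

open MeasureTheory Pool.Agent.Helper60.TJ
open Pool.Agent.Helper61.MM (HG Cl One)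
open scoped symmDiff

/-- any two connected points of `G` have energy difference at most `C` -/
def Close (p : XX) (C : ℝ) (G : Finset Vx) : Prop :=
  ∀ v ∈ G, ∀ v' ∈ G, ∀ X : Finset Ed, (∀ e ∈ X, wl p e = true) →
    par (ind X) = vx (dl v) (dl v') → |en (wt p.1) p.2.1 X| ≤ C

open Classical in
/-- directed wall points of the box whose walk of `m` steps has energy at most `C` -/
noncomputable def WP (p : XX) (L : ℕ) (C : ℝ) (m : ℕ) : Finset (Vx × Dir) :=
  (box L ×ˢ (Finset.univ : Finset Dir)).filter fun q =>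
    wl p (edg q.1 q.2) = true ∧ |Vn m (shX q.1 p, q.2)| ≤ C

theorem add_mem_box {L n : ℕ} {x v : Vx} (hx : x ∈ box L) (hv : v ∈ box n) : x + v ∈ box (L + n) := by
  unfold box at *
  simp only [Finset.mem_product, Finset.mem_Icc, Prod.fst_add, Prod.snd_add] at *
  push_cast
  omega

theorem box_mono {L L' : ℕ} (h : L ≤ L') : box L ⊆ box L' := by
  intro x hx
  unfold box at *
  simp only [Finset.mem_product, Finset.mem_Icc] at *
  have : (L : ℤ) ≤ L' := by exact_mod_cast h
  omega

theorem stp_mem_box (d : Dir) : stp d ∈ box 1 := by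
  unfold box
  simp only [Finset.mem_product, Finset.mem_Icc]
  fin_cases d <;> simp [stp]

theorem nxt_sh (W : Ed → Bool) (u : Vx) (d : Dir) : nxt (sh u W) 0 d = nxt W u d := by
  unfold nxt
  rw [sh_edg, sh_edg, zero_add]

theorem ep_succ (p : XX) (d : Dir) (k : ℕ) (x : Vx) :
    H2.ep p d (k + 1) x = H2.ep p d k x + stp (H2.dr p d k x) := by
  unfold H2.ep H2.dr
  rw [pos, add_assoc]

theorem dr_succ (p : XX) (d : Dir) (k : ℕ) (x : Vx) :
    H2.dr p d (k + 1) x = nxt (wl p) (H2.ep p d (k + 1) x) (H2.dr p d k x) := by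
  have h : Th^[k + 1] (shX x p, d) = Th (shX (H2.ep p d k x) p, H2.dr p d k x) := by
    rw [Function.iterate_succ_apply', H2.iter_eq]
  unfold H2.dr at h ⊢
  rw [h]
  show nxt (wl (shX (stp (Th^[k] (shX x p, d)).2) (shX (H2.ep p d k x) p))) 0 _ = _
  rw [shX_shX, wl_shX, nxt_sh, ep_succ, add_comm]
  rfl

theorem pos_add (y : YY) (k m : ℕ) : pos y (k + m) = pos y k + pos (Th^[k] y) m := by
  induction m with
  | zero => simp [pos]
  | succ m ih =>
    rw [← add_assoc, pos, ih, pos, ← Function.iterate_add_apply, Nat.add_comm m k, add_assoc]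

theorem ep_add (p : XX) (d : Dir) (k m : ℕ) (x : Vx) :
    H2.ep p d (k + m) x = H2.ep p (H2.dr p d k x) m (H2.ep p d k x) := by
  have h : H2.ep p d (k + m) x = H2.ep p d k x + pos (Th^[k] (shX x p, d)) m := by
    unfold H2.ep
    rw [pos_add, add_assoc]
  rw [h, H2.iter_eq]
  rfl

section det

variable {p : XX} (hdeg : Deg2 (wl p))
    (hac : ∀ C : Finset Ed, IsCyc C → (∀ e ∈ C, wl p e = true) → C = ∅)

include hdeg in
/-- one step back -/
theorem exists_back_one {g : Vx} {d : Dir} (hg : wl p (edg g d) = true) :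
    ∃ (x : Vx) (c : Dir), wl p (edg x c) = true ∧ x + stp c = g ∧ nxt (wl p) g c = d ∧
      ∃ v ∈ box 1, x = g + v := by
  have h1 := G1.oth_spec2 hdeg hg
  set c1 := oth (wl p) g d with hc1
  refine ⟨g + stp c1, opp c1, ?_, ?_, ?_, stp c1, stp_mem_box _, rfl⟩
  · rw [edg_opp]; exact h1.1
  · rw [stp_opp, add_neg_cancel_right]
  · have h2 := G1.nxt_spec2 hdeg (v := g) (d := opp c1) (by rw [opp_opp]; exact h1.1)
    rw [opp_opp] at h2
    exact (h2.2.2 d hg h1.2.1.symm).symm

include hdeg in
/-- `k` steps back -/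
theorem exists_back (k : ℕ) : ∀ {g : Vx} {d : Dir}, wl p (edg g d) = true →
    ∃ (x : Vx) (c : Dir), wl p (edg x c) = true ∧ H2.ep p c k x = g ∧ H2.dr p c k x = d ∧
      ∃ v ∈ box k, x = g + v := by
  induction k with
  | zero =>
    intro g d hg
    refine ⟨g, d, hg, ?_, rfl, 0, ?_, (add_zero g).symm⟩
    · unfold H2.ep
      rw [pos, add_zero]
    · unfold box
      simp
      rfl
  | succ k ih =>
    intro g d hg
    obtain ⟨x1, c1, h1, h2, h3, v1, hv1, h4⟩ := exists_back_one hdeg hg
    obtain ⟨x, c, h5, h6, h7, v, hv, h8⟩ := ih h1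
    have h9 : H2.ep p c (k + 1) x = g := by rw [ep_succ, h6, h7, h2]
    refine ⟨x, c, h5, h9, ?_, v1 + v, ?_, ?_⟩
    · rw [dr_succ, h9, h7, h3]
    · rw [Nat.add_comm k 1]
      exact add_mem_box hv1 hv
    · rw [h8, h4, add_assoc]

open Classical in
/-- directed wall points of a box -/
noncomputable def DW (p : XX) (L : ℕ) : Finset (Vx × Dir) :=
  (box L ×ˢ (Finset.univ : Finset Dir)).filter fun q => wl p (edg q.1 q.2) = true

theorem card_DW_le (p : XX) (L : ℕ) : (DW p L).card ≤ 4 * (box L).card := by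
  refine (Finset.card_filter_le _ _).trans ?_
  rw [Finset.card_product]
  simp [mul_comm]

open Classical in
include hdeg in
theorem card_hit {L n k : ℕ} (hk : k ≤ n) {G : Finset Vx} (hG : G ⊆ box L)
    (hon : ∀ v ∈ G, OnW (wl p) v) :
    G.card ≤ ((DW p (L + n)).filter fun q => H2.ep p q.2 k q.1 ∈ G).card := by
  have h1 : ∀ g : Vx, ∃ q : Vx × Dir, g ∈ G → q ∈ DW p (L + n) ∧ H2.ep p q.2 k q.1 = g := by
    intro g
    by_cases hg : g ∈ G
    · obtain ⟨d, hd⟩ := hon g hg
      obtain ⟨x, c, h2, h3, -, v, hv, h4⟩ := exists_back hdeg k hd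
      refine ⟨(x, c), fun _ => ⟨?_, h3⟩⟩
      unfold DW
      rw [Finset.mem_filter, Finset.mem_product]
      refine ⟨⟨?_, Finset.mem_univ _⟩, h2⟩
      show x ∈ box (L + n)
      rw [h4]
      exact box_mono (by omega) (add_mem_box (hG hg) hv)
    · exact ⟨(g, 0), fun h => absurd h hg⟩
  choose f hf using h1
  refine Finset.card_le_card_of_injOn f ?_ ?_
  · intro g hg
    rw [Finset.mem_coe] at hg
    obtain ⟨h2, h3⟩ := hf g hg
    rw [Finset.mem_coe, Finset.mem_filter]
    exact ⟨h2, by rw [h3]; exact hg⟩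
  · intro g hg g' hg' he
    rw [Finset.mem_coe] at hg hg'
    rw [← (hf g hg).2, ← (hf g' hg').2, he]

include hdeg hac

/-- walk of `k` steps as a map of directed wall points -/
theorem walk_inj2 (k : ℕ) {x x' : Vx} {d d' : Dir} (hx : wl p (edg x d) = true)
    (hx' : wl p (edg x' d') = true) (h1 : H2.ep p d k x = H2.ep p d' k x')
    (h2 : H2.dr p d k x = H2.dr p d' k x') : x = x' ∧ d = d' := by
  have h3 : Th^[k] (shX x p, d) = Th^[k] (shX x' p, d') := by
    rw [H2.iter_eq, H2.iter_eq, h1, h2]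
  have h4 := H2.iter_inj (H2.gy hdeg hac hx) (H2.gy hdeg hac hx') k h3
  have h5 : d = d' := congrArg Prod.snd h4
  subst h5
  exact ⟨H2.walk_inj hdeg hac hx hx' k h1 h2, rfl⟩

open Classical in
theorem card_two {L n k m : ℕ} (hm : m < n) {C : ℝ} {G : Finset Vx} (hG : G ⊆ box L)
    (hcl : HG n C G p) :
    ((DW p (L + n)).filter fun q => H2.ep p q.2 k q.1 ∈ G ∧ H2.ep p q.2 (k + m) q.1 ∈ G).card ≤
      (WP p L C m).card := by
  refine Finset.card_le_card_of_injOn (fun q => (H2.ep p q.2 k q.1, H2.dr p q.2 k q.1)) ?_ ?_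
  · rintro ⟨x, d⟩ hq
    rw [Finset.mem_coe, Finset.mem_filter] at hq
    obtain ⟨h1, h2, h3⟩ := hq
    unfold DW at h1
    rw [Finset.mem_filter] at h1
    have hxd : wl p (edg x d) = true := h1.2
    have hwk : wl p (edg (H2.ep p d k x) (H2.dr p d k x)) = true := H2.wl_dr hdeg hac hxd k
    simp only at h2 h3
    unfold WP
    rw [Finset.mem_coe, Finset.mem_filter, Finset.mem_product]
    refine ⟨⟨hG h2, Finset.mem_univ _⟩, hwk, ?_⟩
    rw [ep_add] at h3
    exact (hcl _ h2).2 _ hwk m hm h3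
  · rintro ⟨x, d⟩ hq ⟨x', d'⟩ hq' he
    rw [Finset.mem_coe, Finset.mem_filter] at hq hq'
    have hxd : wl p (edg x d) = true := (Finset.mem_filter.1 hq.1).2
    have hxd' : wl p (edg x' d') = true := (Finset.mem_filter.1 hq'.1).2
    rw [Prod.mk.injEq] at he
    obtain ⟨h1, h2⟩ := walk_inj2 hdeg hac k hxd hxd' he.1 he.2
    rw [h1, h2]

theorem HG_of_close (n : ℕ) {C : ℝ} {G : Finset Vx} (hon : ∀ v ∈ G, OnW (wl p) v)
    (hcl : Close p C G) : HG n C G p := by
  intro v hv
  refine ⟨hon v hv, fun d hd m _ hm => ?_⟩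
  obtain ⟨X, hX, hXp, hXe⟩ := H2.exists_piece hdeg hac hd m
  rw [← hXe]
  exact hcl _ hv _ hm X hX hXp

open Classical in
/-- **Window lemma.** -/
theorem window {L n : ℕ} {C : ℝ} {G : Finset Vx} (hG : G ⊆ box L) (hcl : HG n C G p) :
    n * (G.card) ^ 2 ≤ 8 * (box (L + n)).card * ∑ m ∈ Finset.range n, (WP p L C m).card := by
  have hon : ∀ v ∈ G, OnW (wl p) v := fun v hv => (hcl v hv).1
  set D := DW p (L + n) with hD
  set a : ℕ → ℕ := fun m => (WP p L C m).card with ha
  let N : Vx × Dir → ℕ := fun q => ((Finset.range n).filter fun k => H2.ep p q.2 k q.1 ∈ G).card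
  -- first moment
  have h1 : n * G.card ≤ ∑ q ∈ D, N q := by
    have e1 : ∑ q ∈ D, N q =
        ∑ k ∈ Finset.range n, (D.filter fun q => H2.ep p q.2 k q.1 ∈ G).card := by
      simp only [N, Finset.card_filter]
      exact Finset.sum_comm
    rw [e1]
    calc n * G.card = ∑ _k ∈ Finset.range n, G.card := by simp
      _ ≤ _ := Finset.sum_le_sum fun k hk =>
        card_hit hdeg (Finset.mem_range.1 hk).le hG hon
  -- second moment
  have h2 : ∑ q ∈ D, (N q) ^ 2 ≤ 2 * n * ∑ m ∈ Finset.range n, a m := by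
    have e1 : ∑ q ∈ D, (N q) ^ 2 = ∑ k ∈ Finset.range n, ∑ l ∈ Finset.range n,
        (D.filter fun q => H2.ep p q.2 k q.1 ∈ G ∧ H2.ep p q.2 l q.1 ∈ G).card := by
      have e2 : ∀ q, (N q) ^ 2 = ∑ k ∈ Finset.range n, ∑ l ∈ Finset.range n,
          if (H2.ep p q.2 k q.1 ∈ G ∧ H2.ep p q.2 l q.1 ∈ G) then 1 else 0 := by
        intro q
        simp only [N, Finset.card_filter]
        rw [sq, Finset.sum_mul_sum]
        refine Finset.sum_congr rfl fun k _ => Finset.sum_congr rfl fun l _ => ?_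
        by_cases hk : H2.ep p q.2 k q.1 ∈ G <;> by_cases hl : H2.ep p q.2 l q.1 ∈ G <;>
          simp [hk, hl]
      simp only [e2, Finset.card_filter]
      rw [Finset.sum_comm]
      refine Finset.sum_congr rfl fun k _ => ?_
      rw [Finset.sum_comm]
    rw [e1]
    have e3 : ∀ k ∈ Finset.range n, ∀ l ∈ Finset.range n,
        (D.filter fun q => H2.ep p q.2 k q.1 ∈ G ∧ H2.ep p q.2 l q.1 ∈ G).card ≤
          (if k ≤ l then a (l - k) else 0) + (if l ≤ k then a (k - l) else 0) := by
      intro k hk l hl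
      rw [Finset.mem_range] at hk hl
      rcases le_total k l with h | h
      · obtain ⟨m, rfl⟩ := Nat.exists_eq_add_of_le h
        have := card_two (k := k) (m := m) (n := n) hdeg hac (by omega) hG hcl
        rw [if_pos h, Nat.add_sub_cancel_left]
        exact this.trans (Nat.le_add_right _ _)
      · obtain ⟨m, rfl⟩ := Nat.exists_eq_add_of_le h
        have := card_two (k := l) (m := m) (n := n) hdeg hac (by omega) hG hcl
        have h3 : (D.filter fun q => H2.ep p q.2 (l + m) q.1 ∈ G ∧ H2.ep p q.2 l q.1 ∈ G) =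
            (D.filter fun q => H2.ep p q.2 l q.1 ∈ G ∧ H2.ep p q.2 (l + m) q.1 ∈ G) := by
          refine Finset.filter_congr fun q _ => and_comm
        rw [h3, if_pos h, Nat.add_sub_cancel_left]
        exact this.trans (Nat.le_add_left _ _)
    have e4 : ∀ k ∈ Finset.range n, ∑ l ∈ Finset.range n, (if k ≤ l then a (l - k) else 0) ≤
        ∑ m ∈ Finset.range n, a m := by
      intro k _
      rw [← Finset.sum_filter]
      have h4 : ∑ l ∈ (Finset.range n).filter (fun l => k ≤ l), a (l - k) =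
          ∑ m ∈ ((Finset.range n).filter (fun l => k ≤ l)).image (fun l => l - k), a m := by
        rw [Finset.sum_image]
        intro x hx y hy hxy
        simp only [Finset.coe_filter, Finset.mem_range, Set.mem_ofPred_eq] at hx hy
        have hxy' : x - k = y - k := hxy
        omega
      rw [h4]
      refine Finset.sum_le_sum_of_subset ?_
      intro m hm
      rw [Finset.mem_image] at hm
      obtain ⟨l, hl, rfl⟩ := hm
      rw [Finset.mem_filter, Finset.mem_range] at hl
      rw [Finset.mem_range]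
      omega
    have e5 : ∀ k ∈ Finset.range n, ∑ l ∈ Finset.range n, (if l ≤ k then a (k - l) else 0) ≤
        ∑ m ∈ Finset.range n, a m := by
      intro k hk
      rw [← Finset.sum_filter]
      have h4 : ∑ l ∈ (Finset.range n).filter (fun l => l ≤ k), a (k - l) =
          ∑ m ∈ ((Finset.range n).filter (fun l => l ≤ k)).image (fun l => k - l), a m := by
        rw [Finset.sum_image]
        intro x hx y hy hxy
        simp only [Finset.coe_filter, Finset.mem_range, Set.mem_ofPred_eq] at hx hy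
        have hxy' : k - x = k - y := hxy
        omega
      rw [h4]
      refine Finset.sum_le_sum_of_subset ?_
      intro m hm
      rw [Finset.mem_image] at hm
      obtain ⟨l, hl, rfl⟩ := hm
      rw [Finset.mem_filter, Finset.mem_range] at hl
      have := Finset.mem_range.1 hk
      rw [Finset.mem_range]
      omega
    calc _ ≤ ∑ k ∈ Finset.range n, ∑ l ∈ Finset.range n,
          ((if k ≤ l then a (l - k) else 0) + (if l ≤ k then a (k - l) else 0)) :=
        Finset.sum_le_sum fun k hk => Finset.sum_le_sum fun l hl => e3 k hk l hl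
      _ = ∑ k ∈ Finset.range n, (∑ l ∈ Finset.range n, (if k ≤ l then a (l - k) else 0) +
          ∑ l ∈ Finset.range n, (if l ≤ k then a (k - l) else 0)) := by
        refine Finset.sum_congr rfl fun k _ => Finset.sum_add_distrib
      _ ≤ ∑ _k ∈ Finset.range n, (∑ m ∈ Finset.range n, a m + ∑ m ∈ Finset.range n, a m) :=
        Finset.sum_le_sum fun k hk => Nat.add_le_add (e4 k hk) (e5 k hk)
      _ = 2 * n * ∑ m ∈ Finset.range n, a m := by
        rw [Finset.sum_const, Finset.card_range, smul_eq_mul]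
        ring
  -- Cauchy-Schwarz
  have h3 : (∑ q ∈ D, N q) ^ 2 ≤ D.card * ∑ q ∈ D, (N q) ^ 2 := sq_sum_le_card_mul_sum_sq
  have h4 : (n * G.card) ^ 2 ≤ (4 * (box (L + n)).card) * (2 * n * ∑ m ∈ Finset.range n, a m) :=
    calc (n * G.card) ^ 2 ≤ (∑ q ∈ D, N q) ^ 2 := Nat.pow_le_pow_left h1 2
      _ ≤ D.card * ∑ q ∈ D, (N q) ^ 2 := h3
      _ ≤ _ := Nat.mul_le_mul (card_DW_le p _) h2
  rcases Nat.eq_zero_or_pos n with rfl | hn
  · simp
  · refine Nat.le_of_mul_le_mul_left (?_ : n * _ ≤ n * _) hn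
    calc n * (n * G.card ^ 2) = (n * G.card) ^ 2 := by ring
      _ ≤ _ := h4
      _ = n * (8 * (box (L + n)).card * ∑ m ∈ Finset.range n, a m) := by ring

end det

end Pool.Agent.Helper63.MS
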